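import Pool.Agent.MP_e446a9_co.BlockS

namespace RectCay

variable {G : Type*} [Group G] [Fintype G] [DecidableEq G]

theorem fiber_card (g y : G) (hy : IsConj g y) :
    (Finset.univ.filter fun x : G => x⁻¹ * g * x = y).card =
      Nat.card (Subgroup.centralizer ({g} : Set G)) := by
  classical
  obtain ⟨c, hc⟩ := isConj_iff.1 hy
  -- y = c * g * c⁻¹, x₀ = c⁻¹
  rw [← Fintype.card_subtype, ← Nat.card_eq_fintype_card]
  refine Nat.card_congr ?_
  refine
    { toFun := fun x => ⟨x.1 * c, ?_⟩
      invFun := fun z => ⟨z.1 * c⁻¹, ?_⟩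
      left_inv := ?_
      right_inv := ?_ }
  · rw [Subgroup.mem_centralizer_singleton_iff]
    have := x.2
    have h2 : x.1⁻¹ * g * x.1 = c * g * c⁻¹ := by rw [this, hc]
    calc x.1 * c * g = x.1 * (c * g * c⁻¹) * c := by group
      _ = x.1 * (x.1⁻¹ * g * x.1) * c := by rw [h2]
      _ = g * (x.1 * c) := by group
  · have := z.2
    rw [Subgroup.mem_centralizer_singleton_iff] at this
    show (z.1 * c⁻¹)⁻¹ * g * (z.1 * c⁻¹) = y
    rw [← hc]
    calc (z.1 * c⁻¹)⁻¹ * g * (z.1 * c⁻¹) = c * (z.1⁻¹ * (g * z.1)) * c⁻¹ := by group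
      _ = c * (z.1⁻¹ * (z.1 * g)) * c⁻¹ := by rw [this]
      _ = c * g * c⁻¹ := by group
  · intro x
    ext
    simp
  · intro z
    ext
    simp

theorem T_eq (D : Finset G) (g : G) :
    T D g = Nat.card (Subgroup.centralizer ({g} : Set G)) *
      Nat.card {x : G // x ∈ D ∧ IsConj g x} := by
  classical
  unfold T
  have h1 : (Finset.univ.filter fun x : G => x⁻¹ * g * x ∈ D).card =
      ∑ y ∈ D.filter (fun y => IsConj g y),
        (Finset.univ.filter fun x : G => x⁻¹ * g * x = y).card := by
    rw [← Finset.card_biUnion]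
    · congr 1
      ext x
      simp only [Finset.mem_filter, Finset.mem_univ, true_and, Finset.mem_biUnion]
      constructor
      · intro hx
        refine ⟨_, ⟨hx, ?_⟩, rfl⟩
        exact isConj_iff.2 ⟨x⁻¹, by group⟩
      · rintro ⟨y, ⟨hy, -⟩, hxy⟩
        rw [hxy]; exact hy
    · intro a _ b _ hab
      rw [Function.onFun, Finset.disjoint_left]
      intro x hx hx'
      simp only [Finset.mem_filter, Finset.mem_univ, true_and] at hx hx'
      exact hab (hx.symm.trans hx')
  rw [h1, Finset.sum_congr rfl (g := fun _ => Nat.card (Subgroup.centralizer ({g} : Set G)))]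
  · rw [Finset.sum_const, smul_eq_mul, mul_comm]
    congr 1
    rw [Nat.card_eq_fintype_card, Fintype.card_subtype]
    congr 1
    ext x
    simp
  · intro y hy
    exact fiber_card g y (Finset.mem_filter.1 hy).2

theorem no_three {D : Finset G} {n : ℕ} (h : IsD D n) {g a b c : G} (hg : g ≠ 1)
    (ha : a ∈ D) (ha' : a⁻¹ * g ∈ D) (hb : b ∈ D) (hb' : b⁻¹ * g ∈ D)
    (hc : c ∈ D) (hc' : c⁻¹ * g ∈ D) (hab : a ≠ b) (hac : a ≠ c) (hbc : b ≠ c) : False := by
  have h3 : ({a, b, c} : Finset G) ⊆ D.filter fun a => a⁻¹ * g ∈ D := by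
    intro x hx
    simp only [Finset.mem_insert, Finset.mem_singleton] at hx
    rcases hx with rfl | rfl | rfl <;> simp [*]
  have h4 := Finset.card_le_card h3
  rw [h.two_reps g hg, Finset.card_eq_three.2 ⟨a, b, c, hab, hac, hbc, rfl⟩] at h4
  omega

/-- `T` of an element whose class misses `D` is zero, contradiction. -/
theorem exists_conj_mem {D : Finset G} {n : ℕ} (h : IsD D n) (hn : 3 ≤ n) (w : G) :
    ∃ y ∈ D, IsConj w y := by
  by_contra hcon
  push Not at hcon
  have h1 : T D w = 0 := by
    unfold T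
    rw [Finset.card_eq_zero, Finset.filter_eq_empty_iff]
    intro x _ hx
    exact hcon _ hx (isConj_iff.2 ⟨x⁻¹, by group⟩)
  have h2 := T_modEq h (by omega) w
  rw [h1] at h2
  have h3 : (n : ℤ) ∣ 2 := by
    have := h2.dvd
    simpa using this
  have h4 := Int.le_of_dvd (by norm_num) h3
  omega

theorem central_of_class_subset {D : Finset G} {n : ℕ} (h : IsD D n) (hn : 3 ≤ n) {x : G}
    (hx : x ≠ 1) (hcl : ∀ y, IsConj x y → y ∈ D) : x ∈ Subgroup.center G := by
  have hxD : x ∈ D := hcl x (IsConj.refl x)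
  -- products of two elements `a, b` of the class with `a ≠ b`, `a b ≠ 1` are not in `D`
  have key : ∀ a b : G, IsConj x a → IsConj x b → a * b ≠ 1 → a * b ∉ D := by
    intro a b ha hb hab hD
    have ha1 : a ≠ 1 := by
      rintro rfl
      exact hx (isConj_one_left.1 ha)
    have hb1 : b ≠ 1 := by
      rintro rfl
      exact hx (isConj_one_left.1 hb)
    exact no_three h hab (a := 1) (b := a * b) (c := a) h.one_mem (by simpa using hD) hD
      (by simpa using h.one_mem) (hcl a ha) (by simpa using hcl b hb) (Ne.symm hab)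
      (Ne.symm ha1) (by
        intro h5
        exact hb1 (by simpa using h5))
  by_contra hcen
  -- there is a conjugate with product ≠ 1
  have key2 : ∀ y : G, IsConj x y → x * y = 1 := by
    intro y hy
    by_contra hw
    obtain ⟨z, hzD, hz⟩ := exists_conj_mem h hn (x * y)
    obtain ⟨c, hc⟩ := isConj_iff.1 hz
    have h6 : z = (c * x * c⁻¹) * (c * y * c⁻¹) := by
      rw [← hc]; group
    refine key (c * x * c⁻¹) (c * y * c⁻¹) (isConj_iff.2 ⟨c, rfl⟩)
      (hy.trans (isConj_iff.2 ⟨c, rfl⟩)) ?_ (h6 ▸ hzD)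
    intro h7
    apply hw
    have : c * (x * y) * c⁻¹ = 1 := by
      rw [← h7]; group
    exact (conj_eq_one_iff).1 this
  -- so every conjugate is x⁻¹, in particular x = x⁻¹ and x is central
  have h8 : x * x = 1 := key2 x (IsConj.refl x)
  apply hcen
  rw [Subgroup.mem_center_iff]
  intro g
  have h9 := key2 (g * x * g⁻¹) (isConj_iff.2 ⟨g, rfl⟩)
  have h10 : g * x * g⁻¹ = x := by
    have : x * (g * x * g⁻¹) = x * x := by rw [h9, h8]
    exact mul_left_cancel this
  calc g * x = g * x * g⁻¹ * g := by group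
    _ = x * g := by rw [h10]

theorem mem_of_central {D : Finset G} {n : ℕ} (h : IsD D n) (hn : 3 ≤ n) {z : G}
    (hz : z ∈ Subgroup.center G) : z ∈ D := by
  obtain ⟨y, hyD, hy⟩ := exists_conj_mem h hn z
  obtain ⟨c, hc⟩ := isConj_iff.1 hy
  have h1 : c * z * c⁻¹ = z := by
    rw [Subgroup.mem_center_iff.1 hz c]; group
  rw [← hc, h1] at hyD
  exact hyD

theorem central_mul {D : Finset G} {n : ℕ} (h : IsD D n) (hn : 3 ≤ n) {a b : G}
    (ha : a ∈ Subgroup.center G) (hb : b ∈ Subgroup.center G) (ha1 : a ≠ 1) (hb1 : b ≠ 1) :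
    a * b = 1 := by
  by_contra hab
  have hD : a * b ∈ D := mem_of_central h hn (mul_mem ha hb)
  exact no_three h hab (a := 1) (b := a * b) (c := a) h.one_mem (by simpa using hD) hD
      (by simpa using h.one_mem) (mem_of_central h hn ha)
      (by simpa using mem_of_central h hn hb) (Ne.symm hab)
      (Ne.symm ha1) (by
        intro h5
        exact hb1 (by simpa using h5))

theorem card_center_le {D : Finset G} {n : ℕ} (h : IsD D n) (hn : 3 ≤ n) :
    Nat.card (Subgroup.center G) ≤ 2 := by
  classical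
  by_cases hex : ∃ a ∈ Subgroup.center G, a ≠ 1
  · obtain ⟨a, ha, ha1⟩ := hex
    have haa := central_mul h hn ha ha ha1 ha1
    have hsub : ∀ b ∈ Subgroup.center G, b = 1 ∨ b = a := by
      intro b hb
      by_cases hb1 : b = 1
      · exact Or.inl hb1
      · right
        have := central_mul h hn ha hb ha1 hb1
        exact mul_left_cancel (this.trans haa.symm)
    have hsub2 : ((Subgroup.center G : Subgroup G) : Set G) ⊆ (({1, a} : Finset G) : Set G) := by
      intro b hb
      rcases hsub b hb with rfl | rfl <;> simp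
    have h3 := Nat.card_mono (Finset.finite_toSet ({1, a} : Finset G)) hsub2
    have h4 : Nat.card ((({1, a} : Finset G) : Set G)) = ({1, a} : Finset G).card := by
      rw [Nat.card_coe_set_eq, Set.ncard_coe_finset]
    rw [h4] at h3
    exact h3.trans Finset.card_le_two
  · push Not at hex
    have : Subgroup.center G = ⊥ := by
      rw [Subgroup.eq_bot_iff_forall]
      exact hex
    rw [this]
    simp

theorem index_centralizer (g : G) :
    (Subgroup.centralizer ({g} : Set G)).index = Nat.card {y : G // IsConj g y} := by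
  classical
  have h1 : T (Finset.univ : Finset G) g = Fintype.card G := by
    unfold T
    simp
  have h2 := T_eq (Finset.univ : Finset G) g
  rw [h1] at h2
  have h3 := Subgroup.card_mul_index (Subgroup.centralizer ({g} : Set G))
  rw [Nat.card_eq_fintype_card (α := G), h2] at h3
  have h4 : 0 < Nat.card (Subgroup.centralizer ({g} : Set G)) := Nat.card_pos
  have h5 := Nat.eq_of_mul_eq_mul_left h4 h3
  rw [h5]
  simp

theorem coprime_card {D : Finset G} {n : ℕ} (h : IsD D n) (hodd : Odd n) :
    Nat.Coprime (Fintype.card G) n := by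
  have h1 := two_mul_card h
  have h2 : Nat.Coprime (2 * Fintype.card G) n := by
    rw [h1]
    have : n ^ 4 + 3 * n ^ 2 + 4 = 4 + n * (n ^ 3 + 3 * n) := by ring
    rw [this, Nat.coprime_add_mul_left_left]
    have : Nat.Coprime (2 ^ 2) n := Nat.Coprime.pow_left 2 ((Nat.coprime_two_left).2 hodd)
    simpa using this
  exact Nat.Coprime.coprime_mul_left h2

theorem class_card {D : Finset G} {n : ℕ} (h : IsD D n) (hn : 3 ≤ n) (hodd : Odd n) {x : G}
    (hx : x ∉ Subgroup.center G) :
    ∃ t : ℕ, 1 ≤ t ∧ 1 ≤ Nat.card {y : G // y ∈ D ∧ IsConj x y} ∧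
      (Subgroup.centralizer ({x} : Set G)).index =
        Nat.card {y : G // y ∈ D ∧ IsConj x y} + n * t := by
  classical
  have hx1 : x ≠ 1 := by
    rintro rfl
    exact hx (one_mem _)
  obtain ⟨y₀, hy₀D, hy₀⟩ := exists_conj_mem h hn x
  have hc1 : 1 ≤ Nat.card {y : G // y ∈ D ∧ IsConj x y} := by
    have : Nonempty {y : G // y ∈ D ∧ IsConj x y} := ⟨⟨y₀, hy₀D, hy₀⟩⟩
    exact Nat.card_pos
  have hle : Nat.card {y : G // y ∈ D ∧ IsConj x y} <
      (Subgroup.centralizer ({x} : Set G)).index := by
    rw [index_centralizer]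
    by_contra hge
    push Not at hge
    apply hx
    refine central_of_class_subset h hn hx1 ?_
    intro y hy
    have hinj : Function.Injective (fun z : {y : G // y ∈ D ∧ IsConj x y} =>
        (⟨z.1, z.2.2⟩ : {y : G // IsConj x y})) := by
      intro a b hab
      ext
      simpa using hab
    have hbij := (Fintype.bijective_iff_injective_and_card _).2
      ⟨hinj, le_antisymm (Fintype.card_le_of_injective _ hinj) (by
        rw [← Nat.card_eq_fintype_card, ← Nat.card_eq_fintype_card]; exact hge)⟩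
    obtain ⟨z, hz⟩ := hbij.2 ⟨y, hy⟩
    have : z.1 = y := by simpa using congrArg Subtype.val hz
    rw [← this]; exact z.2.1
  -- congruence
  have hT := T_modEq h (by omega : 1 ≤ n) x
  have hT1 := T_modEq h (by omega : 1 ≤ n) (1 : G)
  have hv : T D (1 : G) = Fintype.card G := by
    unfold T
    simp [h.one_mem]
  have hv2 : Fintype.card G = Nat.card (Subgroup.centralizer ({x} : Set G)) *
      (Subgroup.centralizer ({x} : Set G)).index := by
    rw [Subgroup.card_mul_index, Nat.card_eq_fintype_card]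
  have hmod : (T D x : ℤ) ≡ (Fintype.card G : ℤ) [ZMOD n] := by
    rw [hv] at hT1
    exact hT.trans hT1.symm
  rw [T_eq D x, hv2] at hmod
  push_cast at hmod
  have hcop : IsCoprime (n : ℤ) (Nat.card (Subgroup.centralizer ({x} : Set G)) : ℤ) := by
    rw [Nat.isCoprime_iff_coprime]
    have h6 := coprime_card h hodd
    rw [hv2] at h6
    exact (Nat.Coprime.coprime_mul_right h6).symm
  have hd := hmod.dvd
  rw [← mul_sub] at hd
  have hd2 := hcop.dvd_of_dvd_mul_left hd
  obtain ⟨t, ht⟩ := hd2
  have htpos : 0 < t := by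
    by_contra hneg
    push Not at hneg
    have : (n : ℤ) * t ≤ 0 := mul_nonpos_of_nonneg_of_nonpos (by positivity) hneg
    have h7 : (Nat.card {y : G // y ∈ D ∧ IsConj x y} : ℤ) <
      ((Subgroup.centralizer ({x} : Set G)).index : ℤ) := by exact_mod_cast hle
    linarith
  refine ⟨t.toNat, by omega, hc1, ?_⟩
  have h8 : ((t.toNat : ℕ) : ℤ) = t := Int.toNat_of_nonneg htpos.le
  have h9 : ((Subgroup.centralizer ({x} : Set G)).index : ℤ) =
      ((Nat.card {y : G // y ∈ D ∧ IsConj x y} + n * t.toNat : ℕ) : ℤ) := by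
    push_cast
    rw [h8]
    linarith
  exact_mod_cast h9

end RectCay
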