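import Pool.Agent.MP_e446a9_co.BlockB

set_option linter.unusedSectionVars false

/-!
Block C: abelian quotients.
-/

namespace RectCay

open Finset

variable {G : Type*} [Group G] [Fintype G] [DecidableEq G]

section fibre

variable {H : Type*} [CommGroup H] [Fintype H] [DecidableEq H]

lemma cc_fibre (φ : G →* H) (hφ : Function.Surjective φ) (t : H) :
    (univ.filter fun x => φ x = t).card = (univ.filter fun x => φ x = 1).card := by
  obtain ⟨g, rfl⟩ := hφ t
  refine (card_bij (fun x _ => g * x) ?_ ?_ ?_).symm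
  · intro x hx
    simp only [mem_filter, mem_univ, true_and] at hx ⊢
    rw [map_mul, hx, mul_one]
  · intro x _ y _ hxy
    exact mul_left_cancel hxy
  · intro y hy
    simp only [mem_filter, mem_univ, true_and] at hy
    refine ⟨g⁻¹ * y, ?_, by group⟩
    simp only [mem_filter, mem_univ, true_and]
    rw [map_mul, map_inv, hy, inv_mul_cancel]

lemma cc_card (φ : G →* H) (hφ : Function.Surjective φ) :
    Fintype.card H * (univ.filter fun x => φ x = 1).card = Fintype.card G := by
  have h1 := card_eq_sum_card_fiberwise (f := φ) (s := (univ : Finset G)) (t := (univ : Finset H))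
    (fun x _ => by simp)
  rw [sum_congr rfl fun t _ => cc_fibre φ hφ t, sum_const, smul_eq_mul, card_univ, card_univ] at h1
  exact h1.symm

lemma cc_inv {D : Finset G} {n : ℕ} (h : IsD D n) (φ : G →* H) (t : H) :
    (D.filter fun x => φ x = t⁻¹).card = (D.filter fun x => φ x = t).card := by
  refine card_bij (fun x _ => x⁻¹) ?_ ?_ ?_
  · intro x hx
    simp only [mem_filter] at hx ⊢
    exact ⟨h.inv_mem x hx.1, by rw [map_inv, hx.2, inv_inv]⟩
  · intro x _ y _ hxy
    exact inv_injective hxy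
  · intro y hy
    simp only [mem_filter] at hy
    exact ⟨y⁻¹, by simp only [mem_filter]; exact ⟨h.inv_mem y hy.1, by rw [map_inv, hy.2]⟩, by simp⟩

lemma cc_sum {D : Finset G} {n : ℕ} (h : IsD D n) (φ : G →* H) :
    ∑ t : H, (D.filter fun x => φ x = t).card = n ^ 2 + 2 := by
  rw [← h.card_eq]
  exact (card_eq_sum_card_fiberwise (f := φ) (s := D) (t := (univ : Finset H))
    (fun x _ => by simp)).symm

lemma cc_sq {D : Finset G} {n : ℕ} (h : IsD D n) (φ : G →* H) :
    ∑ t : H, (D.filter fun x => φ x = t).card ^ 2 =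
      n ^ 2 + 2 * (univ.filter fun x => φ x = 1).card := by
  set K := (univ.filter fun x => φ x = 1) with hK
  have h1K : (1 : G) ∈ K := by simp [hK]
  -- the double count
  have h1 : ∑ g ∈ K, (D.filter fun a => a⁻¹ * g ∈ D).card =
      ∑ a ∈ D, (D.filter fun b => φ b = (φ a)⁻¹).card := by
    have h2 : ∀ g ∈ K, (D.filter fun a => a⁻¹ * g ∈ D).card =
        ∑ a ∈ D, if a⁻¹ * g ∈ D then 1 else 0 := fun g _ => card_filter _ _
    rw [sum_congr rfl h2, sum_comm]
    refine sum_congr rfl fun a ha => ?_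
    rw [← card_filter]
    refine card_bij (fun g _ => a⁻¹ * g) ?_ ?_ ?_
    · intro g hg
      simp only [mem_filter, hK, mem_univ, true_and] at hg ⊢
      exact ⟨hg.2, by rw [map_mul, map_inv, hg.1, mul_one]⟩
    · intro x _ y _ hxy
      exact mul_left_cancel hxy
    · intro b hb
      simp only [mem_filter] at hb
      refine ⟨a * b, ?_, by group⟩
      simp only [mem_filter, hK, mem_univ, true_and]
      refine ⟨by rw [map_mul, hb.2, mul_inv_cancel], by simpa using hb.1⟩
  have h3 : ∑ a ∈ D, (D.filter fun b => φ b = (φ a)⁻¹).card =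
      ∑ t : H, (D.filter fun x => φ x = t).card ^ 2 := by
    rw [← sum_fiberwise_of_maps_to (s := D) (t := (univ : Finset H)) (g := φ) (fun x _ => by simp)]
    refine sum_congr rfl fun t _ => ?_
    rw [sum_congr rfl (g := fun _ => (D.filter fun x => φ x = t).card), sum_const, smul_eq_mul, sq]
    intro a ha
    simp only [mem_filter] at ha
    rw [ha.2, cc_inv h φ t]
  rw [← h3, ← h1, ← add_sum_erase K _ h1K]
  have h4 : ∑ g ∈ K.erase 1, (D.filter fun a => a⁻¹ * g ∈ D).card = ∑ g ∈ K.erase 1, 2 := by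
    refine sum_congr rfl fun g hg => ?_
    exact h.two_reps g (ne_of_mem_erase hg)
  rw [h4, sum_const, smul_eq_mul, card_erase_of_mem h1K]
  have h5 : (D.filter fun a => a⁻¹ * 1 ∈ D) = D := by
    refine filter_true_of_mem fun a ha => ?_
    rw [mul_one]
    exact h.inv_mem a ha
  rw [h5, h.card_eq]
  have h6 : 1 ≤ K.card := card_pos.mpr ⟨1, h1K⟩
  omega

lemma cc_T {D : Finset G} (φ : G →* H) (t : H) :
    ∑ g ∈ univ.filter (fun g => φ g = t), T D g =
      Fintype.card G * (D.filter fun x => φ x = t).card := by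
  have h2 : ∀ g ∈ univ.filter (fun g => φ g = t), T D g =
      ∑ x : G, if x⁻¹ * g * x ∈ D then 1 else 0 := fun g _ => card_filter _ _
  rw [sum_congr rfl h2, sum_comm]
  rw [sum_congr rfl (g := fun _ => (D.filter fun x => φ x = t).card), sum_const, smul_eq_mul,
    card_univ]
  intro x _
  rw [← card_filter]
  refine card_bij (fun g _ => x⁻¹ * g * x) ?_ ?_ ?_
  · intro g hg
    simp only [mem_filter, mem_univ, true_and] at hg ⊢
    refine ⟨hg.2, ?_⟩
    rw [map_mul, map_mul, map_inv, hg.1, mul_comm (φ x)⁻¹ t, mul_assoc, inv_mul_cancel, mul_one]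
  · intro a _ b _ hab
    exact mul_left_cancel (mul_right_cancel hab)
  · intro b hb
    simp only [mem_filter] at hb
    refine ⟨x * b * x⁻¹, ?_, by group⟩
    simp only [mem_filter, mem_univ, true_and]
    refine ⟨?_, by have : x⁻¹ * (x * b * x⁻¹) * x = b := by group
                   rw [this]; exact hb.1⟩
    rw [map_mul, map_mul, map_inv, hb.2, mul_comm (φ x) t, mul_assoc, mul_inv_cancel, mul_one]

end fibre

/-- the arithmetic of block C -/
lemma cc_arith {n v : ℕ} (hn : 3 ≤ n) (hodd : Odd n) (hv : 2 * v = n ^ 4 + 3 * n ^ 2 + 4) :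
    IsCoprime (v : ℤ) (n : ℤ) := by
  rw [Int.isCoprime_iff_gcd_eq_one, Int.gcd_natCast_natCast]
  have h1 : Nat.gcd v n ∣ 4 := by
    have h2 : Nat.gcd v n ∣ n ^ 4 + 3 * n ^ 2 := by
      have : Nat.gcd v n ∣ n := Nat.gcd_dvd_right _ _
      exact dvd_add (dvd_pow this (by norm_num)) (Dvd.dvd.mul_left (dvd_pow this (by norm_num)) _)
    have h3 : Nat.gcd v n ∣ n ^ 4 + 3 * n ^ 2 + 4 := by
      rw [← hv]
      exact Dvd.dvd.mul_left (Nat.gcd_dvd_left _ _) _
    exact (Nat.dvd_add_right h2).mp h3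
  have h4 : Odd (Nat.gcd v n) := hodd.of_dvd_nat (Nat.gcd_dvd_right _ _)
  have h5 : Nat.gcd v n ≤ 4 := Nat.le_of_dvd (by norm_num) h1
  have h6 : 0 < Nat.gcd v n := Nat.pos_of_dvd_of_pos h1 (by norm_num)
  interval_cases hg : Nat.gcd v n
  · rfl
  · exact absurd h4 (by decide)
  · exact absurd h1 (by decide)
  · exact absurd h4 (by decide)

theorem coset_count {D : Finset G} {n : ℕ} (h : IsD D n) (hn : 3 ≤ n) (hodd : Odd n)
    {H : Type*} [CommGroup H] [Fintype H] [DecidableEq H] (φ : G →* H)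
    (hφ : Function.Surjective φ) (hH : n < Fintype.card H) :
    ∃ (r : ℕ) (t₀ : H), t₀ * t₀ = 1 ∧ r * Fintype.card H + n = n ^ 2 + 2 ∧
      ∀ t : H, (D.filter fun x => φ x = t).card = r + if t = t₀ then n else 0 := by
  set κ := (univ.filter fun x => φ x = 1).card with hκ
  set d : H → ℕ := fun t => (D.filter fun x => φ x = t).card with hd
  have hv := two_mul_card h
  have hκv : Fintype.card H * κ = Fintype.card G := cc_card φ hφ
  have hsum : ∑ t, d t = n ^ 2 + 2 := cc_sum h φ
  have hsq : ∑ t, d t ^ 2 = n ^ 2 + 2 * κ := cc_sq h φ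
  have hinv : ∀ t, d t⁻¹ = d t := fun t => cc_inv h φ t
  have hcop := cc_arith hn hodd hv
  -- congruences
  have hmod : ∀ t, ((Fintype.card G : ℤ) * d t) ≡ 2 * κ [ZMOD n] := by
    intro t
    have h1 : ((Fintype.card G : ℤ) * d t) = ∑ g ∈ univ.filter (fun g => φ g = t), (T D g : ℤ) := by
      have := cc_T (D := D) φ t
      rw [← Nat.cast_sum, this]
      push_cast
      rfl
    rw [h1]
    have h2 : (2 * κ : ℤ) = ∑ g ∈ univ.filter (fun g => φ g = t), (2 : ℤ) := by
      rw [sum_const, cc_fibre φ hφ t, ← hκ, nsmul_eq_mul, mul_comm]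
    rw [h2]
    exact Int.ModEq.sum fun g _ => T_modEq h (by omega) g
  have hmod2 : ∀ t t', (d t : ℤ) ≡ d t' [ZMOD n] := by
    intro t t'
    have h1 := (hmod t).trans (hmod t').symm
    have h2 : (n : ℤ) ∣ (Fintype.card G : ℤ) * (d t' - d t) := by
      have := h1.dvd
      rwa [← mul_sub] at this
    have h3 : (n : ℤ) ∣ (d t' - d t : ℤ) := hcop.symm.dvd_of_dvd_mul_left h2
    exact (Int.modEq_iff_dvd).mpr h3
  -- the minimum
  obtain ⟨t₁, -, ht₁⟩ := exists_min_image (univ : Finset H) d ⟨1, mem_univ _⟩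
  set r := d t₁ with hr
  have hw : ∀ t, ∃ w : ℕ, d t = r + n * w := by
    intro t
    have h1 := (hmod2 t₁ t).dvd
    have h2 : r ≤ d t := ht₁ t (mem_univ _)
    obtain ⟨w, hw⟩ : n ∣ d t - r := by
      have : ((d t - r : ℕ) : ℤ) = (d t : ℤ) - r := by push_cast [h2]; ring
      rw [← Int.natCast_dvd_natCast, this]
      exact h1
    exact ⟨w, by omega⟩
  choose w hw using hw
  set W := ∑ t, w t with hWdef
  set S := ∑ t, w t ^ 2 with hSdef
  set c := Fintype.card H with hc
  have hrW : r * c + n * W = n ^ 2 + 2 := by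
    rw [← hsum, hWdef, mul_sum, sum_congr rfl fun t _ => hw t, sum_add_distrib, sum_const,
      card_univ, smul_eq_mul, mul_comm]
  have hsq2 : r ^ 2 * c + 2 * r * n * W + n ^ 2 * S = n ^ 2 + 2 * κ := by
    have h1 : ∑ t, d t ^ 2 = ∑ t, (r ^ 2 + 2 * r * n * w t + n ^ 2 * w t ^ 2) :=
      sum_congr rfl fun t _ => by rw [hw t]; ring
    have h2 : ∑ t : H, (r ^ 2 + 2 * r * n * w t + n ^ 2 * w t ^ 2) =
        r ^ 2 * c + 2 * r * n * W + n ^ 2 * S := by
      rw [sum_add_distrib, sum_add_distrib, sum_const, card_univ, smul_eq_mul, ← mul_sum,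
        ← mul_sum, mul_comm (r ^ 2)]
    rw [← h2, ← h1, hsq]
  have hkey : (c : ℤ) * (S - 1) = (W : ℤ) ^ 2 - 1 := by
    have hn0 : (n : ℤ) ^ 2 ≠ 0 := by positivity
    apply mul_left_cancel₀ hn0
    have e1 : (r : ℤ) * c + n * W = n ^ 2 + 2 := by exact_mod_cast hrW
    have e2 : (r : ℤ) ^ 2 * c + 2 * r * n * W + n ^ 2 * S = n ^ 2 + 2 * κ := by exact_mod_cast hsq2
    have e3 : (2 : ℤ) * (c * κ) = n ^ 4 + 3 * n ^ 2 + 4 := by
      rw [← hκv] at hv
      exact_mod_cast hv
    linear_combination (c : ℤ) * e2 - ((r : ℤ) * c + n * W + (n ^ 2 + 2)) * e1 + e3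
  have hWn : W ≤ n := by
    by_contra hcon
    push Not at hcon
    have : n * (n + 1) ≤ n * W := Nat.mul_le_mul_left n hcon
    nlinarith
  have hSW : W ≤ S := sum_le_sum fun t _ => Nat.le_self_pow (by norm_num) _
  have hW1 : 1 ≤ W := by
    by_contra hcon
    have hW0 : W = 0 := by omega
    have hS0 : S = 0 := by
      have : ∀ t, w t = 0 := fun t => (sum_eq_zero_iff.mp hW0) t (mem_univ _)
      exact sum_eq_zero fun t _ => by rw [this t]; rfl
    rw [hW0, hS0] at hkey
    push_cast at hkey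
    have : (c : ℤ) = 1 := by linarith
    have : c = 1 := by exact_mod_cast this
    omega
  have hW : W = 1 := by
    by_contra hcon
    have hW2 : 2 ≤ W := by omega
    have h1 : (c : ℤ) * (W - 1) ≤ (W : ℤ) ^ 2 - 1 := by
      rw [← hkey]
      have : (W : ℤ) ≤ S := by exact_mod_cast hSW
      have hc0 : (0 : ℤ) ≤ c := by positivity
      nlinarith
    have h2 : (c : ℤ) ≤ W + 1 := by
      have hWz : (2 : ℤ) ≤ W := by exact_mod_cast hW2
      nlinarith
    have h3 : c ≤ W + 1 := by exact_mod_cast h2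
    have h4 : W = n := by omega
    have h5 : c = n + 1 := by omega
    rw [h4, h5] at hrW
    have h6 : r * (n + 1) = 2 := by nlinarith
    have h7 : (n + 1) ∣ 2 := ⟨r, by rw [← h6]; ring⟩
    have := Nat.le_of_dvd (by norm_num) h7
    omega
  obtain ⟨t₀, -, ht₀⟩ : ∃ t ∈ (univ : Finset H), w t ≠ 0 := by
    by_contra hcon
    push Not at hcon
    have : W = 0 := sum_eq_zero hcon
    omega
  have hwt₀ : w t₀ = 1 := by
    have : w t₀ ≤ W := single_le_sum (fun t _ => Nat.zero_le (w t)) (mem_univ t₀)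
    omega
  have hwt : ∀ t, t ≠ t₀ → w t = 0 := by
    intro t ht
    have h1 := add_sum_erase univ w (mem_univ t₀)
    have h2 : w t ≤ ∑ s ∈ univ.erase t₀, w s :=
      single_le_sum (f := w) (fun s _ => Nat.zero_le _) (mem_erase.mpr ⟨ht, mem_univ _⟩)
    omega
  refine ⟨r, t₀, ?_, ?_, ?_⟩
  · have h1 : d t₀⁻¹ = d t₀ := hinv t₀
    rw [hw, hw t₀, hwt₀] at h1
    by_contra hcon
    have h2 : t₀⁻¹ ≠ t₀ := by
      intro h3
      apply hcon
      nth_rewrite 1 [← h3]
      exact inv_mul_cancel t₀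
    rw [hwt _ h2] at h1
    omega
  · rw [← hrW, hW, mul_one]
  · intro t
    change d t = _
    rw [hw t]
    by_cases ht : t = t₀
    · rw [if_pos ht, ht, hwt₀, mul_one]
    · rw [if_neg ht, hwt t ht, mul_zero]

end RectCay
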