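import Mathlib

/-! [RC-D1] pure arithmetic for MP_e446a9_co. -/

set_option autoImplicit false

namespace RectCay

private theorem arith_dvd {n q v : ℕ} (hn : 5 ≤ n) (hodd : Odd n)
    (hv : 2 * v = n ^ 4 + 3 * n ^ 2 + 4) (hq : IsPrimePow q) (hqv : q ∣ v) :
    q ∣ n ^ 2 + n + 2 ∨ q ∣ n ^ 2 + 2 - n := by
  obtain ⟨p, a, hp, ha, rfl⟩ := hq
  have hp' : p.Prime := Nat.prime_iff.mpr hp
  have hnn : n ≤ n ^ 2 := Nat.le_self_pow (by norm_num) n
  obtain ⟨B, hB⟩ : ∃ B, B = n ^ 2 + 2 - n := ⟨_, rfl⟩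
  have hB' : B + n = n ^ 2 + 2 := by omega
  have hAB : (n ^ 2 + n + 2) * B = 2 * v := by
    rw [hv]
    have h1 : (B : ℤ) = n ^ 2 + 2 - n := by
      have := congrArg (Nat.cast (R := ℤ)) hB'
      push_cast at this
      linarith
    zify
    rw [h1]
    ring
  rw [← hB]
  rcases hp'.eq_two_or_odd' with h2 | h2
  · subst h2
    obtain ⟨m, rfl⟩ := hodd
    rcases Nat.even_or_odd m with hm | hm
    · -- n ≡ 1 mod 4: `B / 2` odd
      left
      obtain ⟨l, rfl⟩ := hm
      have hB2 : B = 2 * (2 * (4 * l ^ 2 + l) + 1) - 0 := by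
        have : (2 * (l + l) + 1) ^ 2 + 2 = 2 * (2 * (4 * l ^ 2 + l) + 1) + (2 * (l + l) + 1) := by
          ring
        omega
      rw [Nat.sub_zero] at hB2
      have hv2 : ((2 * (l + l) + 1) ^ 2 + (2 * (l + l) + 1) + 2) * (2 * (4 * l ^ 2 + l) + 1) = v := by
        rw [hB2] at hAB
        have : 2 * (((2 * (l + l) + 1) ^ 2 + (2 * (l + l) + 1) + 2) *
            (2 * (4 * l ^ 2 + l) + 1)) = 2 * v := by
          rw [← hAB]; ring
        omega
      have hcop : Nat.Coprime (2 ^ a) (2 * (4 * l ^ 2 + l) + 1) := by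
        apply Nat.Coprime.pow_left
        rw [Nat.coprime_two_left]
        exact ⟨_, rfl⟩
      rw [← hv2] at hqv
      exact hcop.dvd_of_dvd_mul_right hqv
    · right
      obtain ⟨l, rfl⟩ := hm
      have hA2 : (2 * (2 * l + 1) + 1) ^ 2 + (2 * (2 * l + 1) + 1) + 2 =
          2 * (2 * (4 * l ^ 2 + 7 * l + 3) + 1) := by ring
      have hv2 : (2 * (4 * l ^ 2 + 7 * l + 3) + 1) * B = v := by
        rw [hA2] at hAB
        have : 2 * ((2 * (4 * l ^ 2 + 7 * l + 3) + 1) * B) = 2 * v := by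
          rw [← hAB]; ring
        omega
      have hcop : Nat.Coprime (2 ^ a) (2 * (4 * l ^ 2 + 7 * l + 3) + 1) := by
        apply Nat.Coprime.pow_left
        rw [Nat.coprime_two_left]
        exact ⟨_, rfl⟩
      rw [← hv2] at hqv
      exact hcop.dvd_of_dvd_mul_left hqv
  · have hqAB : p ^ a ∣ (n ^ 2 + n + 2) * B := by
      rw [hAB]
      exact dvd_mul_of_dvd_right hqv 2
    by_cases hpA : p ∣ n ^ 2 + n + 2
    · by_cases hpB : p ∣ B
      · exfalso
        have h3 : p ∣ 2 * n := by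
          have h4 : 2 * n = (n ^ 2 + n + 2) - B := by omega
          rw [h4]
          exact Nat.dvd_sub hpA hpB
        have h5 : p ∣ n := by
          rcases (Nat.Prime.dvd_mul hp').mp h3 with h6 | h6
          · exfalso
            have := (Nat.prime_dvd_prime_iff_eq hp' Nat.prime_two).mp h6
            subst this
            exact absurd h2 (by decide)
          · exact h6
        have h7 : p ∣ 2 := by
          have h8 : 2 = (n ^ 2 + n + 2) - (n * (n + 1)) := by
            have : n * (n + 1) = n ^ 2 + n := by ring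
            omega
          rw [h8]
          exact Nat.dvd_sub hpA (dvd_mul_of_dvd_left h5 _)
        have := (Nat.prime_dvd_prime_iff_eq hp' Nat.prime_two).mp h7
        subst this
        exact absurd h2 (by decide)
      · left
        exact (Nat.Coprime.pow_left a ((Nat.Prime.coprime_iff_not_dvd hp').mpr hpB)).dvd_of_dvd_mul_right
          hqAB
    · right
      exact (Nat.Coprime.pow_left a ((Nat.Prime.coprime_iff_not_dvd hp').mpr hpA)).dvd_of_dvd_mul_left
        hqAB

/-- pure arithmetic -/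
theorem arith {n q f j c t v : ℕ} (hn : 5 ≤ n) (hodd : Odd n) (hv : 2 * v = n ^ 4 + 3 * n ^ 2 + 4)
    (hq : IsPrimePow q) (hqf : q = 1 + j * f) (hfB : f ∣ n ^ 2 + 2 - n) (hdvd : q * f ∣ v)
    (hf : f = c + n * t) (hc : 1 ≤ c) (ht : 1 ≤ t)
    (hs : (1 + j * c) * (j * c) ≤ 2 * (q - 1)) : False := by
  have hnn : n ≤ n ^ 2 := Nat.le_self_pow (by norm_num) n
  obtain ⟨B, hB⟩ : ∃ B, B = n ^ 2 + 2 - n := ⟨_, rfl⟩
  have hB' : B + n = n ^ 2 + 2 := by omega
  rw [← hB] at hfB
  have hj : 1 ≤ j := by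
    rcases Nat.eq_zero_or_pos j with h0 | h0
    · exfalso
      have := hq.one_lt
      rw [hqf, h0] at this
      omega
    · exact h0
  have hfn : n + 1 ≤ f := by
    have h1 : n * 1 ≤ n * t := Nat.mul_le_mul_left n ht
    omega
  have hqn : n + 2 ≤ q := by
    have h1 : 1 * f ≤ j * f := Nat.mul_le_mul_right f hj
    omega
  have hBpos : 0 < B := by omega
  have hqA : q ∣ n ^ 2 + n + 2 := by
    rcases arith_dvd hn hodd hv hq (dvd_trans (dvd_mul_right q f) hdvd) with h | h
    · exact h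
    · exfalso
      rw [← hB] at h
      have hcop : Nat.Coprime q f := by
        rw [hqf, Nat.coprime_add_mul_right_left]
        exact Nat.coprime_one_left f
      have h1 : q * f ∣ B := Nat.Coprime.mul_dvd_of_dvd_of_dvd hcop h hfB
      have h2 := Nat.le_of_dvd hBpos h1
      have h3 : (n + 2) * (n + 1) ≤ q * f := Nat.mul_le_mul hqn hfn
      have h4 : (n + 2) * (n + 1) = n ^ 2 + 3 * n + 2 := by ring
      omega
  obtain ⟨m, hm⟩ := hqA
  have hm1 : 1 ≤ m := by
    rcases Nat.eq_zero_or_pos m with h0 | h0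
    · rw [h0, mul_zero] at hm
      omega
    · exact h0
  have hmn : m + 1 ≤ n := by
    by_contra hcon
    push Not at hcon
    have h1 : n ≤ m := by omega
    have h2 : (n + 2) * n ≤ q * m := Nat.mul_le_mul hqn h1
    have h4 : (n + 2) * n = n ^ 2 + 2 * n := by ring
    omega
  obtain ⟨b, hb⟩ := hfB
  have hfm : ∃ s : ℤ, (2 * n - m : ℤ) = f * s := by
    refine ⟨(j : ℤ) * m - b, ?_⟩
    have h1 : (B : ℤ) + n = n ^ 2 + 2 := by exact_mod_cast hB'
    have h2 : (n : ℤ) ^ 2 + n + 2 = q * m := by exact_mod_cast hm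
    have h3 : (q : ℤ) = 1 + j * f := by exact_mod_cast hqf
    have h4 : (B : ℤ) = f * b := by exact_mod_cast hb
    rw [h3] at h2
    linear_combination h2 + h1 - h4
  obtain ⟨s, hs1⟩ := hfm
  have hfn' : (n : ℤ) + 1 ≤ f := by exact_mod_cast hfn
  have hmn' : (m : ℤ) + 1 ≤ n := by exact_mod_cast hmn
  have hm1' : (1 : ℤ) ≤ m := by exact_mod_cast hm1
  have hs2 : 0 < s := by
    by_contra hcon
    push Not at hcon
    have h1 : (f : ℤ) * s ≤ 0 := mul_nonpos_of_nonneg_of_nonpos (by linarith) hcon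
    linarith
  have hs3 : s < 2 := by
    by_contra hcon
    push Not at hcon
    have h1 : (f : ℤ) * 2 ≤ f * s := mul_le_mul_of_nonneg_left hcon (by linarith)
    linarith
  have hs4 : s = 1 := by omega
  rw [hs4, mul_one] at hs1
  have hf2 : f + m = 2 * n := by
    have : (f : ℤ) + m = 2 * n := by linarith
    exact_mod_cast this
  have ht1 : t = 1 := by
    by_contra hcon
    have h2 : 2 ≤ t := by omega
    have h3 : n * 2 ≤ n * t := Nat.mul_le_mul_left n h2
    omega
  rw [ht1, mul_one] at hf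
  have hcm : c + m = n := by omega
  -- final estimate
  have e1 : (n : ℤ) ^ 2 + 2 + c = j * (n ^ 2 - c ^ 2) := by
    have h2 : (n : ℤ) ^ 2 + n + 2 = q * m := by exact_mod_cast hm
    have h3 : (q : ℤ) = 1 + j * f := by exact_mod_cast hqf
    have h4 : (f : ℤ) = c + n := by exact_mod_cast hf
    have h5 : (m : ℤ) = n - c := by
      have : (c : ℤ) + m = n := by exact_mod_cast hcm
      linarith
    rw [h3, h4, h5] at h2
    linear_combination h2
  have hj' : (1 : ℤ) ≤ j := by exact_mod_cast hj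
  have hc' : (1 : ℤ) ≤ c := by exact_mod_cast hc
  have hn' : (5 : ℤ) ≤ n := by exact_mod_cast hn
  have hcn : (c : ℤ) + 1 ≤ n := by
    have : (c : ℤ) + m = n := by exact_mod_cast hcm
    linarith
  have hj2 : (2 : ℤ) ≤ j := by
    by_contra hcon
    have : (j : ℤ) = 1 := by omega
    rw [this] at e1
    have h1 := sq_nonneg (c : ℤ)
    linarith
  have e2 : ((1 : ℤ) + j * c) * (j * c) ≤ 2 * (j * (c + n)) := by
    have h1 : q - 1 = j * (c + n) := by
      rw [hqf, hf, Nat.add_sub_cancel_left]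
    rw [h1] at hs
    exact_mod_cast hs
  have e3 : (1 + (j : ℤ) * c) * c ≤ 2 * (c + n) := by
    have h1 : (j : ℤ) * ((1 + (j : ℤ) * c) * c) ≤ j * (2 * (c + n)) := by linarith
    exact le_of_mul_le_mul_left h1 (by linarith)
  have e1' : ((j : ℤ) - 1) * n ^ 2 = j * c ^ 2 + c + 2 := by linear_combination -e1
  have e3' : (j : ℤ) * c ^ 2 ≤ c + 2 * n := by
    have h1 : (1 + (j : ℤ) * c) * c = c + j * c ^ 2 := by ring
    linarith
  have e4 : ((j : ℤ) - 1) * n ^ 2 ≤ 4 * n := by linarith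
  have e5 : (n : ℤ) ^ 2 ≤ ((j : ℤ) - 1) * n ^ 2 := by
    have h1 : (0 : ℤ) ≤ ((j : ℤ) - 2) * n ^ 2 := mul_nonneg (by linarith) (sq_nonneg _)
    linarith
  have e6 : (5 : ℤ) * n ≤ n ^ 2 := by
    rw [sq]
    exact mul_le_mul_of_nonneg_right hn' (by linarith)
  linarith

end RectCay
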