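import Pool.Agent.MP_e446a9_co.BlockC
import Pool.Agent.MP_e446a9_co.BlockD1

/-! [RC-D2] minimal normal subgroups of prime power order centralised by `G'` are central. -/

set_option autoImplicit false

namespace RectCay

open scoped commutatorElement

variable {G : Type*} [Group G] [Fintype G] [DecidableEq G]

omit [Fintype G] [DecidableEq G] in
private lemma d2_card_class (x : G) :
    Nat.card {y : G // IsConj x y} = (Subgroup.centralizer ({x} : Set G)).index := by
  have e : Subgroup.centralizer ({x} : Set G) =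
      Subgroup.comap (ConjAct.toConjAct : G ≃* ConjAct G).toMonoidHom
        (MulAction.stabilizer (ConjAct G) x) := by
    ext y
    rw [Subgroup.mem_centralizer_singleton_iff, Subgroup.mem_comap, MulAction.mem_stabilizer_iff,
      ConjAct.smul_def]
    change y * x = x * y ↔ y * x * y⁻¹ = x
    rw [mul_inv_eq_iff_eq_mul]
  rw [e, Subgroup.index_comap_of_surjective _ (ConjAct.toConjAct : G ≃* ConjAct G).surjective,
    MulAction.index_stabilizer, ← Nat.card_coe_set_eq]
  refine Nat.card_congr (Equiv.subtypeEquivRight fun y => ?_)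
  rw [ConjAct.mem_orbit_conjAct]
  exact isConj_comm

/-- A minimal normal subgroup `N` of prime power order which is centralised by `G'` is central. -/
theorem le_center_of_minimal {D : Finset G} {n : ℕ} (h : IsD D n) (hn : 5 ≤ n) (hodd : Odd n)
    (N : Subgroup G) [N.Normal] (hN : N ≠ ⊥) (hmin : ∀ M : Subgroup G, M.Normal → M ≤ N → M ≠ ⊥ →
      M = N) (hpp : IsPrimePow (Nat.card N))
    (hcomm : commutator G ≤ Subgroup.centralizer (N : Set G)) :
    N ≤ Subgroup.center G := by
  classical
  by_contra hNZ
  have hNn : N.Normal := inferInstance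
  set C := Subgroup.centralizer (N : Set G) with hC
  have hCn : C.Normal := inferInstance
  -- elements of `N` are not central
  have h1 : ∀ x ∈ N, x ≠ 1 → x ∉ Subgroup.center G := by
    intro x hx hx1 hxZ
    have := hmin (Subgroup.center G ⊓ N) inferInstance inf_le_right (by
      intro hb
      have hm : x ∈ Subgroup.center G ⊓ N := ⟨hxZ, hx⟩
      rw [hb, Subgroup.mem_bot] at hm
      exact hx1 hm)
    exact hNZ (this ▸ inf_le_left)
  -- the centralizers
  have h2 : ∀ x ∈ N, x ≠ 1 → Subgroup.centralizer ({x} : Set G) = C := by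
    intro x hx hx1
    apply le_antisymm
    · intro y hy
      rw [Subgroup.mem_centralizer_singleton_iff] at hy
      have hMn : (N ⊓ Subgroup.centralizer ({y} : Set G)).Normal := by
        refine ⟨fun m hm g => ?_⟩
        rw [Subgroup.mem_inf, Subgroup.mem_centralizer_singleton_iff] at hm ⊢
        refine ⟨hNn.conj_mem m hm.1 g, ?_⟩
        have hcm : ⁅y⁻¹, g⁻¹⁆ ∈ C := hcomm (Subgroup.commutator_mem_commutator
          (Subgroup.mem_top _) (Subgroup.mem_top _))
        rw [hC, Subgroup.mem_centralizer_iff] at hcm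
        have hcm' := hcm m hm.1
        rw [commutatorElement_def, inv_inv, inv_inv] at hcm'
        -- m * (y⁻¹ * g⁻¹ * y * g) = (y⁻¹ * g⁻¹ * y * g) * m
        have e1 : m * (g⁻¹ * y * g) = (g⁻¹ * y * g) * m := by
          have e2 : g⁻¹ * y * g = y * (y⁻¹ * g⁻¹ * y * g) := by group
          rw [e2, ← mul_assoc, hm.2, mul_assoc, hcm', ← mul_assoc]
        calc g * m * g⁻¹ * y = g * (m * (g⁻¹ * y * g)) * g⁻¹ := by group
          _ = g * ((g⁻¹ * y * g) * m) * g⁻¹ := by rw [e1]
          _ = y * (g * m * g⁻¹) := by group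
      have hM := hmin _ hMn inf_le_left (by
        intro hb
        have hm : x ∈ N ⊓ Subgroup.centralizer ({y} : Set G) := by
          rw [Subgroup.mem_inf, Subgroup.mem_centralizer_singleton_iff]
          exact ⟨hx, hy.symm⟩
        rw [hb, Subgroup.mem_bot] at hm
        exact hx1 hm)
      rw [hC, Subgroup.mem_centralizer_iff]
      intro m hm
      have : m ∈ N ⊓ Subgroup.centralizer ({y} : Set G) := by rw [hM]; exact hm
      rw [Subgroup.mem_inf, Subgroup.mem_centralizer_singleton_iff] at this
      exact this.2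
    · exact Subgroup.centralizer_le (Set.singleton_subset_iff.2 hx)
  -- `N` is abelian
  have hNC : N ≤ C := by
    by_cases hb : N ⊓ C = ⊥
    · have : N ≤ C := by
        intro a ha
        rw [hC, Subgroup.mem_centralizer_iff]
        intro b hb'
        have hab : ⁅b, a⁆ ∈ N ⊓ C := by
          refine ⟨?_, hcomm (Subgroup.commutator_mem_commutator
            (Subgroup.mem_top _) (Subgroup.mem_top _))⟩
          rw [commutatorElement_def]
          exact N.mul_mem (N.mul_mem (N.mul_mem hb' ha) (N.inv_mem hb')) (N.inv_mem ha)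
        rw [hb, Subgroup.mem_bot, commutatorElement_eq_one_iff_mul_comm] at hab
        exact hab
      exact this
    · have := hmin (N ⊓ C) inferInstance inf_le_left hb
      exact this ▸ inf_le_right
  set f := C.index with hf
  set q := Nat.card N with hq
  have hf0 : 0 < f := Nat.pos_of_ne_zero Subgroup.index_ne_zero_of_finite
  -- the finset `N \ {1}`
  obtain ⟨S, hmemS⟩ : ∃ S : Finset G, ∀ x, x ∈ S ↔ x ∈ N ∧ x ≠ 1 :=
    ⟨Finset.univ.filter fun x => x ∈ N ∧ x ≠ 1, fun x => by simp⟩
  have hScard : S.card + 1 = q := by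
    have e : insert (1 : G) S = Finset.univ.filter fun x => x ∈ N := by
      ext x
      rw [Finset.mem_insert, hmemS, Finset.mem_filter]
      by_cases hx : x = 1
      · simp [hx, N.one_mem]
      · simp [hx]
    have e2 : (insert (1 : G) S).card = S.card + 1 :=
      Finset.card_insert_of_notMem (by rw [hmemS]; simp)
    rw [← e2, e, hq, Nat.card_eq_fintype_card, Fintype.card_subtype]
  have hclass : ∀ x ∈ S, (S.filter fun y => IsConj x y).card = f := by
    intro x hx
    rw [hmemS] at hx
    rw [hf, ← h2 x hx.1 hx.2, ← d2_card_class, Nat.card_eq_fintype_card, Fintype.card_subtype]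
    congr 1
    ext y
    rw [Finset.mem_filter, Finset.mem_filter, hmemS]
    constructor
    · exact fun hy => ⟨Finset.mem_univ _, hy.2⟩
    · rintro ⟨-, hy⟩
      refine ⟨⟨?_, ?_⟩, hy⟩
      · obtain ⟨g, hg⟩ := isConj_iff.1 hy
        rw [← hg]
        exact hNn.conj_mem x hx.1 g
      · rintro rfl
        exact hx.2 (isConj_one_left.1 hy)
  -- `q = 1 + j f`
  obtain ⟨j, hj⟩ : ∃ j, S.card = j * f := by
    refine ⟨(S.image ConjClasses.mk).card, ?_⟩
    rw [Finset.card_eq_sum_card_image (ConjClasses.mk) S, Finset.sum_const_nat]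
    intro b hb
    obtain ⟨x, hx, rfl⟩ := Finset.mem_image.1 hb
    rw [← hclass x hx]
    congr 1
    ext y
    rw [Finset.mem_filter, Finset.mem_filter, ConjClasses.mk_eq_mk_iff_isConj, isConj_comm]
  have hqf : q = 1 + j * f := by omega
  -- the numbers `c x`
  set cf : G → ℕ := fun x => (D.filter fun y => IsConj x y).card with hcf
  have hcf' : ∀ x, Nat.card {y : G // y ∈ D ∧ IsConj x y} = cf x := by
    intro x
    rw [Nat.card_eq_fintype_card, Fintype.card_subtype, hcf]
    congr 1
    ext y
    simp
  have hSne : S.Nonempty := by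
    rw [← Finset.card_pos]
    have := hpp.one_lt
    omega
  obtain ⟨x, hxS, hxmin⟩ := Finset.exists_min_image S cf hSne
  have hx := (hmemS x).1 hxS
  obtain ⟨t, ht, hc1, hc2⟩ := class_card h (by omega) hodd (h1 x hx.1 hx.2)
  rw [hcf'] at hc1 hc2
  rw [h2 x hx.1 hx.2] at hc2
  -- the quotient by `C`
  have hnf : n < f := by
    have : n * 1 ≤ n * t := Nat.mul_le_mul_left n ht
    omega
  have hfB : f ∣ n ^ 2 + 2 - n := by
    have hcq := (Subgroup.Normal.quotient_commutative_iff_commutator_le (N := C)).2 hcomm
    let _ : CommGroup (G ⧸ C) := { (inferInstance : Group (G ⧸ C)) with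
      mul_comm := hcq.is_comm.comm }
    obtain ⟨r, t₀, -, hr, -⟩ := coset_count h (by omega) hodd
      (QuotientGroup.mk' C : G →* G ⧸ C) (QuotientGroup.mk'_surjective C) (by
        rw [← Nat.card_eq_fintype_card]; exact hnf)
    rw [← Nat.card_eq_fintype_card] at hr
    have hr' : r * f + n = n ^ 2 + 2 := hr
    exact ⟨r, by rw [mul_comm]; omega⟩
  have hdvd : q * f ∣ Fintype.card G := by
    rw [← Nat.card_eq_fintype_card, ← C.card_mul_index]
    exact Nat.mul_dvd_mul (Subgroup.card_dvd_of_le hNC) dvd_rfl
  -- counting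
  set u := (S.filter fun y => y ∈ D).card with hu
  have hju : j * cf x ≤ u := by
    have hdc : ∑ y ∈ S, cf y = u * f := by
      have e1 : ∀ y ∈ S, cf y = ((S.filter fun z => z ∈ D).filter fun z => IsConj y z).card := by
        intro y hy
        rw [hmemS] at hy
        change (D.filter fun z => IsConj y z).card = _
        congr 1
        ext z
        rw [Finset.mem_filter, Finset.mem_filter, Finset.mem_filter, hmemS]
        constructor
        · rintro ⟨hz, hyz⟩
          refine ⟨⟨⟨?_, ?_⟩, hz⟩, hyz⟩
          · obtain ⟨g, hg⟩ := isConj_iff.1 hyz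
            rw [← hg]
            exact hNn.conj_mem y hy.1 g
          · rintro rfl
            exact hy.2 (isConj_one_left.1 hyz)
        · rintro ⟨⟨_, hz⟩, hyz⟩
          exact ⟨hz, hyz⟩
      rw [Finset.sum_congr rfl e1]
      simp_rw [Finset.card_filter _ (S.filter fun z => z ∈ D)]
      rw [Finset.sum_comm, hu, Finset.card_eq_sum_ones (S.filter fun y => y ∈ D), Finset.sum_mul]
      refine Finset.sum_congr rfl fun z hz => ?_
      rw [← Finset.card_filter, one_mul, ← hclass z (Finset.mem_filter.1 hz).1]
      congr 1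
      ext y
      rw [Finset.mem_filter, Finset.mem_filter, isConj_comm]
    have hlb : S.card * cf x ≤ ∑ y ∈ S, cf y := by
      rw [← smul_eq_mul, ← Finset.sum_const]
      exact Finset.sum_le_sum fun y hy => hxmin y hy
    rw [hdc, hj] at hlb
    have : j * cf x * f ≤ u * f := by
      calc j * cf x * f = j * f * cf x := by ring
        _ ≤ u * f := hlb
    exact Nat.le_of_mul_le_mul_right this hf0
  have huu : (1 + u) * u ≤ 2 * (q - 1) := by
    -- pairs in `D ∩ N`
    obtain ⟨DN, hmemDN⟩ : ∃ DN : Finset G, ∀ y, y ∈ DN ↔ y ∈ N ∧ y ∈ D :=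
      ⟨Finset.univ.filter fun y => y ∈ N ∧ y ∈ D, fun y => by simp⟩
    have hDNcard : DN.card = 1 + u := by
      have e : DN = insert 1 (S.filter fun y => y ∈ D) := by
        ext y
        rw [hmemDN, Finset.mem_insert, Finset.mem_filter, hmemS]
        by_cases hy : y = 1
        · simp [hy, N.one_mem, h.one_mem]
        · simp [hy]
      rw [e, Finset.card_insert_of_notMem (by simp [hmemS]), add_comm]
    have hle : ∑ g ∈ S, (DN.filter fun a => a⁻¹ * g ∈ DN).card ≤ S.card * 2 := by
      rw [← smul_eq_mul, ← Finset.sum_const]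
      refine Finset.sum_le_sum fun g hg => ?_
      rw [hmemS] at hg
      rw [← h.two_reps g hg.2]
      refine Finset.card_le_card fun a ha => ?_
      rw [Finset.mem_filter, hmemDN, hmemDN] at ha
      rw [Finset.mem_filter]
      exact ⟨ha.1.2, ha.2.2⟩
    have heq : ∑ g ∈ S, (DN.filter fun a => a⁻¹ * g ∈ DN).card = (1 + u) * u := by
      simp_rw [Finset.card_filter _ DN]
      rw [Finset.sum_comm, ← hDNcard, ← smul_eq_mul, ← Finset.sum_const]
      refine Finset.sum_congr rfl fun a ha => ?_
      rw [← Finset.card_filter]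
      rw [hmemDN] at ha
      -- `g ↦ a⁻¹ g` maps onto `DN \ {a⁻¹}`
      have e : (DN.erase a⁻¹).card = u := by
        rw [Finset.card_erase_of_mem ((hmemDN _).2 ⟨N.inv_mem ha.1, h.inv_mem a ha.2⟩), hDNcard]
        omega
      rw [← e]
      refine Finset.card_bij (fun g _ => a⁻¹ * g) ?_ ?_ ?_
      · intro g hg
        rw [Finset.mem_filter, hmemS] at hg
        rw [Finset.mem_erase]
        refine ⟨fun he => hg.1.2 ?_, hg.2⟩
        exact mul_eq_left.1 he
      · intro g _ g' _ he
        exact mul_left_cancel he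
      · intro b hb
        rw [Finset.mem_erase] at hb
        refine ⟨a * b, ?_, by group⟩
        rw [Finset.mem_filter, hmemS]
        refine ⟨⟨N.mul_mem ha.1 ((hmemDN b).1 hb.2).1, fun he => hb.1 ?_⟩, ?_⟩
        · exact eq_inv_of_mul_eq_one_right he
        · rw [inv_mul_cancel_left]
          exact hb.2
    rw [heq] at hle
    omega
  refine arith hn hodd (two_mul_card h) hpp hqf hfB hdvd hc2 hc1 ht ?_
  exact le_trans (Nat.mul_le_mul (by omega) hju) huu

end RectCay
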