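import Pool.Agent.MP_e446a9_co.BlockB

set_option autoImplicit false

/-!
Block N: the group is not nilpotent.
-/

namespace RectCay

/-- a prime dividing the order of a finite nilpotent group divides the order of its centre -/
theorem dvd_card_center {G : Type*} [Group G] [Finite G] (hnil : Group.IsNilpotent G) {p : ℕ}
    (hp : p.Prime) (hdvd : p ∣ Nat.card G) : p ∣ Nat.card (Subgroup.center G) := by
  classical
  have : Fact p.Prime := ⟨hp⟩
  have hnorm : ∀ (q : ℕ) (_ : Fact q.Prime) (Q : Sylow q G), (↑Q : Subgroup G).Normal :=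
    ((Group.isNilpotent_of_finite_tfae (G := G)).out 0 3).1 hnil
  obtain ⟨P⟩ : Nonempty (Sylow p G) := inferInstance
  have hPn : (P : Subgroup G).Normal := hnorm p inferInstance P
  have hPcard : p ∣ Nat.card P := P.dvd_card_of_dvd_card hdvd
  have hPnt : Nontrivial P := by
    rw [← Finite.one_lt_card_iff_nontrivial]
    have h0 : 0 < Nat.card P := Nat.card_pos
    have := Nat.le_of_dvd h0 hPcard
    have := hp.two_le
    omega
  have hZ : Nontrivial (Subgroup.center P) := P.isPGroup'.center_nontrivial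
  obtain ⟨⟨z, hz⟩, hz1⟩ := exists_ne (1 : Subgroup.center P)
  have hzne : z ≠ 1 := by
    intro h
    apply hz1
    ext
    simp [h]
  have hzG : (z : G) ∈ Subgroup.center G := by
    have hdiv : Nat.card G ∣ Nat.card (Subgroup.centralizer ({(z : G)} : Set G)) := by
      rw [Nat.dvd_iff_prime_pow_dvd_dvd]
      intro q k hq hqk
      have : Fact q.Prime := ⟨hq⟩
      by_cases hqp : q = p
      · subst hqp
        have h1 : q ^ k ∣ Nat.card P := P.pow_dvd_card_of_pow_dvd_card hqk
        refine h1.trans ?_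
        apply Subgroup.card_dvd_of_le
        intro x hx
        rw [Subgroup.mem_centralizer_singleton_iff]
        have := (Subgroup.mem_center_iff.1 hz) ⟨x, hx⟩
        exact congrArg Subtype.val this
      · obtain ⟨Q⟩ : Nonempty (Sylow q G) := inferInstance
        have hQn : (Q : Subgroup G).Normal := hnorm q inferInstance Q
        have h1 : q ^ k ∣ Nat.card Q := Q.pow_dvd_card_of_pow_dvd_card hqk
        refine h1.trans ?_
        apply Subgroup.card_dvd_of_le
        intro x hx
        rw [Subgroup.mem_centralizer_singleton_iff]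
        have hd : Disjoint (Q : Subgroup G) (P : Subgroup G) :=
          IsPGroup.disjoint_of_ne q p hqp _ _ Q.isPGroup' P.isPGroup'
        exact Subgroup.commute_of_normal_of_disjoint _ _ hQn hPn hd x z hx z.2
    have htop : Subgroup.centralizer ({(z : G)} : Set G) = ⊤ := by
      apply Subgroup.eq_top_of_card_eq
      exact Nat.dvd_antisymm (Subgroup.card_subgroup_dvd_card _) hdiv
    rw [Subgroup.mem_center_iff]
    intro g
    have : g ∈ Subgroup.centralizer ({(z : G)} : Set G) := by
      rw [htop]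
      exact Subgroup.mem_top g
    exact Subgroup.mem_centralizer_singleton_iff.1 this
  have hord : p ∣ orderOf z := by
    obtain ⟨k, hk⟩ := (IsPGroup.iff_orderOf.1 P.isPGroup') z
    rw [hk]
    have hk0 : k ≠ 0 := by
      rintro rfl
      rw [pow_zero, orderOf_eq_one_iff] at hk
      exact hzne hk
    exact dvd_pow_self p hk0
  have h2 : orderOf z = orderOf (⟨(z : G), hzG⟩ : Subgroup.center G) := by
    rw [← Subgroup.orderOf_coe z, ← Subgroup.orderOf_coe (⟨(z : G), hzG⟩ : Subgroup.center G)]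
  rw [h2] at hord
  exact hord.trans (orderOf_dvd_natCard _)

variable {G : Type*} [Group G] [Fintype G] [DecidableEq G]

theorem not_isNilpotent {D : Finset G} {n : ℕ} (h : IsD D n) (hn : 3 ≤ n) :
    ¬ Group.IsNilpotent G := by
  intro hnil
  have hZ := card_center_le h hn
  have hZpos : 0 < Nat.card (Subgroup.center G) := Nat.card_pos
  have hpow : Nat.card G = 2 ^ (Nat.card G).primeFactorsList.length := by
    apply Nat.eq_prime_pow_of_unique_prime_dvd (Nat.card_pos).ne'
    intro q hq hqd
    have h1 := dvd_card_center hnil hq hqd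
    have h2 := Nat.le_of_dvd hZpos h1
    have := hq.two_le
    omega
  have hcard := two_mul_card h
  rw [← Nat.card_eq_fintype_card, hpow] at hcard
  obtain ⟨m, rfl⟩ : ∃ m, n = m + 3 := ⟨n - 3, by omega⟩
  -- `A = n² + n + 2`, `B = n² - n + 2`
  have hAB : ((m + 3) ^ 2 + (m + 3) + 2) * ((m + 3) ^ 2 + 2 - (m + 3)) =
      2 ^ ((Nat.card G).primeFactorsList.length + 1) := by
    have hB : (m + 3) ^ 2 + 2 - (m + 3) = m ^ 2 + 5 * m + 8 := by
      have : (m + 3) ^ 2 + 2 = m ^ 2 + 5 * m + 8 + (m + 3) := by ring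
      omega
    rw [hB, pow_succ 2 (Nat.card G).primeFactorsList.length, mul_comm (2 ^ _) 2, hcard]
    ring
  have hB : (m + 3) ^ 2 + 2 - (m + 3) = m ^ 2 + 5 * m + 8 := by
    have : (m + 3) ^ 2 + 2 = m ^ 2 + 5 * m + 8 + (m + 3) := by ring
    omega
  rw [hB] at hAB
  obtain ⟨a, -, ha⟩ := (Nat.dvd_prime_pow Nat.prime_two).1 (Dvd.intro _ hAB)
  obtain ⟨b, -, hb⟩ := (Nat.dvd_prime_pow Nat.prime_two).1 (Dvd.intro_left _ hAB)
  have hlt : 2 ^ b < 2 ^ a := by
    rw [← ha, ← hb]
    nlinarith
  have hba : b ≤ a := (Nat.pow_lt_pow_iff_right (by norm_num)).1 hlt |>.le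
  have hdvd : (m ^ 2 + 5 * m + 8) ∣ ((m + 3) ^ 2 + (m + 3) + 2) := by
    rw [ha, hb]
    exact pow_dvd_pow 2 hba
  have hsub : ((m + 3) ^ 2 + (m + 3) + 2) = (m ^ 2 + 5 * m + 8) + 2 * (m + 3) := by ring
  rw [hsub] at hdvd
  have h3 : (m ^ 2 + 5 * m + 8) ∣ 2 * (m + 3) := (Nat.dvd_add_right (dvd_refl _)).1 hdvd
  have h4 := Nat.le_of_dvd (by omega) h3
  nlinarith

end RectCay
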