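import Pool.Agent.MP_e446a9_co.BlockD2
import Pool.Agent.MP_e446a9_co.BlockN

/-!
# Block E1: if `G'` is nilpotent it is a 2-group
-/

namespace RectCay

variable {G : Type*} [Group G] [Fintype G] [DecidableEq G]

/-- A nontrivial normal subgroup inside a nilpotent derived subgroup contains the centre of
order 2. -/
theorem card_of_le_commutator {D : Finset G} {n : ℕ} (h : IsD D n) (hn : 5 ≤ n) (hodd : Odd n)
    (hnil : Group.IsNilpotent (commutator G)) (M : Subgroup G) (hM : M.Normal)
    (hMc : M ≤ commutator G) (hM0 : M ≠ ⊥) :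
    Nat.card (Subgroup.center G) = 2 ∧ 2 ∣ Nat.card M := by
  classical
  obtain ⟨N, hN⟩ := Set.Finite.exists_minimal
    (Set.toFinite {K : Subgroup G | K.Normal ∧ K ≤ M ∧ K ≠ ⊥}) ⟨M, hM, le_rfl, hM0⟩
  obtain ⟨hNn, hNM, hN0⟩ := hN.prop
  have hmin : ∀ K : Subgroup G, K.Normal → K ≤ N → K ≠ ⊥ → K = N := by
    intro K hK hKN hK0
    exact le_antisymm hKN (hN.le_of_le ⟨hK, hKN.trans hNM, hK0⟩ hKN)
  have hNc : N ≤ commutator G := hNM.trans hMc
  -- `G'` centralises `N`
  have hcomm0 : ⁅N, commutator G⁆ = ⊥ := by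
    by_contra hne
    have hle : ⁅N, commutator G⁆ ≤ N := Subgroup.commutator_le_left N (commutator G)
    have heq : ⁅N, commutator G⁆ = N := hmin _ inferInstance hle hne
    have hall : ∀ i : ℕ, N ≤ (commutator G).lowerCentralSeries i := by
      intro i
      induction i with
      | zero => exact hNc
      | succ i ih =>
        rw [Subgroup.lowerCentralSeries_succ, ← heq]
        exact Subgroup.commutator_mono ih le_rfl
    obtain ⟨i, hi⟩ := (Subgroup.isNilpotent_iff_lowerCentralSeries (commutator G)).mp hnil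
    exact hN0 (le_bot_iff.mp (hi ▸ hall i))
  have hcent : commutator G ≤ Subgroup.centralizer (N : Set G) := by
    rw [← Subgroup.commutator_eq_bot_iff_le_centralizer, Subgroup.commutator_comm]
    exact hcomm0
  have hNab : ∀ x ∈ N, ∀ y ∈ N, x * y = y * x := by
    intro x hx y hy
    have := hcent (hNc hx)
    rw [Subgroup.mem_centralizer_iff] at this
    exact (this y hy).symm
  -- elementary abelian
  have hNcard : 1 < Nat.card N := by
    rw [Subgroup.one_lt_card_iff_ne_bot]; exact hN0
  obtain ⟨p, hp, hpdvd⟩ := Nat.exists_prime_and_dvd (ne_of_gt hNcard)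
  haveI : Fact p.Prime := ⟨hp⟩
  let E : Subgroup G :=
    { carrier := {x | x ∈ N ∧ x ^ p = 1}
      one_mem' := ⟨N.one_mem, one_pow p⟩
      mul_mem' := by
        rintro x y ⟨hx, hx1⟩ ⟨hy, hy1⟩
        refine ⟨N.mul_mem hx hy, ?_⟩
        rw [(show Commute x y from hNab x hx y hy).mul_pow, hx1, hy1, one_mul]
      inv_mem' := by
        rintro x ⟨hx, hx1⟩
        exact ⟨N.inv_mem hx, by rw [inv_pow, hx1, inv_one]⟩ }
  have hE : E.Normal := by
    constructor
    rintro x ⟨hx, hx1⟩ g
    refine ⟨hNn.conj_mem x hx g, ?_⟩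
    rw [conj_pow, hx1, mul_one, mul_inv_cancel]
  have hEN : E = N := by
    apply hmin E hE (fun x hx => hx.1)
    obtain ⟨x, hx⟩ := exists_prime_orderOf_dvd_card' p hpdvd
    intro hbot
    have hx1 : (x : G) ∈ E := by
      refine ⟨x.2, ?_⟩
      have := pow_orderOf_eq_one x
      rw [hx] at this
      exact_mod_cast congrArg Subtype.val this
    rw [hbot, Subgroup.mem_bot] at hx1
    have : x = 1 := Subtype.ext hx1
    rw [this, orderOf_one] at hx
    exact hp.one_lt.ne hx
  have hpgrp : IsPGroup p N := by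
    intro x
    refine ⟨1, ?_⟩
    have hx : (x : G) ∈ E := by rw [hEN]; exact x.2
    apply Subtype.ext
    simpa using hx.2
  obtain ⟨k, hk⟩ := IsPGroup.iff_card.mp hpgrp
  have hk0 : k ≠ 0 := by
    rintro rfl
    rw [hk, pow_zero] at hNcard
    exact lt_irrefl _ hNcard
  have hpp : IsPrimePow (Nat.card N) := by
    rw [hk]
    exact hp.isPrimePow.pow hk0
  have hNZ : N ≤ Subgroup.center G := le_center_of_minimal h hn hodd N hN0 hmin hpp hcent
  have hZ := card_center_le h (by omega : 3 ≤ n)
  have h1 : Nat.card N ≤ Nat.card (Subgroup.center G) :=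
    Subgroup.card_le_of_le hNZ
  refine ⟨by omega, ?_⟩
  have h2 : Nat.card N = 2 := by omega
  rw [← h2]
  exact Subgroup.card_dvd_of_le hNM

/-- If `G'` is nilpotent, then `G'` is a (nontrivial) 2-group and `|Z(G)| = 2`. -/
theorem commutator_two_group {D : Finset G} {n : ℕ} (h : IsD D n) (hn : 5 ≤ n) (hodd : Odd n)
    (hnil : Group.IsNilpotent (commutator G)) :
    IsPGroup 2 (commutator G) ∧ Nat.card (Subgroup.center G) = 2 := by
  classical
  have hne : commutator G ≠ ⊥ := by
    intro hbot
    apply not_isNilpotent h (by omega : 3 ≤ n)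
    have hcom : IsMulCommutative G := (_root_.commutator_eq_bot_iff G).mp hbot
    letI : CommGroup G := { (inferInstance : Group G) with mul_comm := fun a b => hcom.is_comm.comm a b }
    exact CommGroup.isNilpotent
  have hN : (commutator G).Normal := inferInstance
  refine ⟨?_, (card_of_le_commutator h hn hodd hnil (commutator G) hN le_rfl hne).1⟩
  have hpow : ∀ p : ℕ, p.Prime → p ∣ Nat.card (commutator G) → p = 2 := by
    intro p hp hpd
    haveI : Fact p.Prime := ⟨hp⟩
    obtain ⟨Q⟩ : Nonempty (Sylow p (commutator G)) := inferInstance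
    have hQn : (Q : Subgroup (commutator G)).Normal :=
      (Group.isNilpotent_of_finite_tfae.out 0 3 rfl rfl).mp hnil p ⟨hp⟩ Q
    haveI hQc : (Q : Subgroup (commutator G)).Characteristic := Q.characteristic_of_normal hQn
    have hQG : ((Q : Subgroup (commutator G)).map (commutator G).subtype).Normal :=
      ConjAct.normal_of_characteristic_of_normal
    have hcardQ : Nat.card ((Q : Subgroup (commutator G)).map (commutator G).subtype) =
        Nat.card Q := by
      exact Nat.card_congr
        ((Q : Subgroup (commutator G)).equivMapOfInjective _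
          (Subgroup.subtype_injective _)).toEquiv.symm
    have hQ1 : p ∣ Nat.card Q := Q.dvd_card_of_dvd_card hpd
    have hQ0 : (Q : Subgroup (commutator G)).map (commutator G).subtype ≠ ⊥ := by
      intro hb
      rw [hb] at hcardQ
      rw [← hcardQ, Subgroup.card_bot] at hQ1
      exact hp.one_lt.ne' (Nat.dvd_one.mp hQ1)
    have h2 := (card_of_le_commutator h hn hodd hnil _ hQG (Subgroup.map_subtype_le _) hQ0).2
    rw [hcardQ] at h2
    obtain ⟨k, hk⟩ := IsPGroup.iff_card.mp Q.isPGroup'
    rw [hk] at h2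
    exact ((Nat.prime_dvd_prime_iff_eq Nat.prime_two hp).mp (Nat.prime_two.dvd_of_dvd_pow h2)).symm
  have hcard := Nat.eq_prime_pow_of_unique_prime_dvd (n := Nat.card (commutator G)) (p := 2)
    Nat.card_pos.ne' (fun {d} hd hdd => hpow d hd hdd)
  exact IsPGroup.of_card hcard

end RectCay
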