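import Pool.Agent.MP_e446a9_co.BlockC

namespace RectCay

variable {G : Type*} [Group G] [Fintype G] [DecidableEq G]

/-- the quotient by a normal subgroup containing the commutator subgroup is commutative -/
@[reducible]
def quotCommGroup (P : Subgroup G) [P.Normal] (hP : commutator G ≤ P) : CommGroup (G ⧸ P) :=
  { QuotientGroup.Quotient.group P with
    mul_comm :=
      (Subgroup.Normal.quotient_commutative_iff_commutator_le.mpr hP).is_comm.comm }

theorem sylow_arith {n v p i : ℕ} (hn : 5 ≤ n) (hodd : Odd n)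
    (hv : 2 * v = n ^ 4 + 3 * n ^ 2 + 4) (hpi : p * i = v) (hi : Odd i)
    {e : ℕ} (hp : p = 2 ^ e)
    (hcc : n < i → ∃ r, r * i + n = n ^ 2 + 2) :
    p = n ^ 2 + n + 2 ∧ 2 * i = n ^ 2 + 2 - n ∧ n < i := by
  obtain ⟨k, rfl⟩ := hodd
  have hk : 2 ≤ k := by omega
  -- `n = 2k+1`, `A/2 = 2k²+3k+2`, `B/2 = 2k²+k+1`
  set a := 2 * k ^ 2 + 3 * k + 2 with ha
  set b := 2 * k ^ 2 + k + 1 with hb
  have hab : v = 2 * (a * b) := by
    have : 2 * v = 2 * (2 * (a * b)) := by
      rw [hv, ha, hb]; ring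
    omega
  have hB : (2 * k + 1) ^ 2 + 2 - (2 * k + 1) = 2 * b := by
    have : (2 * k + 1) ^ 2 + 2 = 2 * b + (2 * k + 1) := by rw [hb]; ring
    omega
  have hA : (2 * k + 1) ^ 2 + (2 * k + 1) + 2 = 2 * a := by rw [ha]; ring
  have key : ∀ c : ℕ, Odd c → c ∣ v → c ∣ i := by
    intro c hc hcv
    rw [← hpi] at hcv
    refine Nat.Coprime.dvd_of_dvd_mul_left ?_ hcv
    rw [hp]
    exact Nat.Coprime.pow_right e (Nat.Coprime.symm (Nat.coprime_two_left.mpr hc))
  have hipos : 0 < i := hi.pos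
  rcases Nat.even_or_odd b with hbe | hbo
  · -- `a` is odd
    exfalso
    have hao : Odd a := by
      rw [ha]
      rw [hb] at hbe
      have h1 : a = b + (2 * k + 1) := by rw [ha, hb]; ring
      rw [← ha, h1]
      exact Even.add_odd (by rw [hb]; exact hbe) ⟨k, rfl⟩
    have hai : a ∣ i := key a hao (by rw [hab]; exact ⟨2 * b, by ring⟩)
    have hle : a ≤ i := Nat.le_of_dvd hipos hai
    have hlt : 2 * k + 1 < a := by rw [ha]; nlinarith
    obtain ⟨r, hr⟩ := hcc (by omega)
    have hr' : r * i = 2 * b := by omega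
    have had : a ∣ 2 * b := hr' ▸ Dvd.dvd.mul_left hai r
    have had' : a ∣ b := (Nat.Coprime.dvd_of_dvd_mul_left
      (Nat.Coprime.symm (Nat.coprime_two_left.mpr hao)) had)
    have hbpos : 0 < b := by rw [hb]; positivity
    have := Nat.le_of_dvd hbpos had'
    rw [ha, hb] at this
    omega
  · have hbi : b ∣ i := key b hbo (by rw [hab]; exact ⟨2 * a, by ring⟩)
    have hle : b ≤ i := Nat.le_of_dvd hipos hbi
    have hlt : 2 * k + 1 < b := by rw [hb]; nlinarith
    obtain ⟨r, hr⟩ := hcc (by omega)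
    have hr' : r * i = 2 * b := by omega
    obtain ⟨s, hs⟩ := hbi
    have hbpos : 0 < b := by rw [hb]; positivity
    have hrs : r * s = 2 := by
      have : b * (r * s) = b * 2 := by
        calc b * (r * s) = r * (b * s) := by ring
          _ = r * i := by rw [← hs]
          _ = b * 2 := by rw [hr']; ring
      exact Nat.eq_of_mul_eq_mul_left hbpos this
    have hso : Odd s := by
      rw [hs] at hi
      exact (Nat.odd_mul.mp hi).2
    have hs1 : s = 1 := by
      have hsd : s ∣ 2 := ⟨r, by rw [← hrs]; ring⟩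
      rcases (Nat.dvd_prime Nat.prime_two).mp hsd with h | h
      · exact h
      · rw [h] at hso
        exact absurd hso (by decide)
    subst hs1
    have hib : i = b := by rw [hs]; ring
    refine ⟨?_, ?_, by omega⟩
    · rw [hA]
      have : p * b = 2 * a * b := by
        rw [← hib, hpi, hab, hib]; ring
      exact Nat.eq_of_mul_eq_mul_right hbpos this
    · rw [hB, hib]

/-- Then the Sylow 2-subgroup `P` is normal, has order `A` and `[G : P] = B / 2` is odd. -/
theorem sylow_data {D : Finset G} {n : ℕ} (h : IsD D n) (hn : 5 ≤ n) (hodd : Odd n)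
    (h2 : IsPGroup 2 (commutator G)) :
    ∃ P : Subgroup G, P.Normal ∧ commutator G ≤ P ∧ IsPGroup 2 P ∧
      Nat.card P = n ^ 2 + n + 2 ∧ 2 * P.index = n ^ 2 + 2 - n ∧ Odd P.index ∧
      ∀ u : G, u ∉ P → Nat.card {x : G // x ∈ D ∧ u⁻¹ * x ∈ P} = 2 := by
  classical
  have : Fact (Nat.Prime 2) := ⟨Nat.prime_two⟩
  obtain ⟨S, hS⟩ := h2.exists_le_sylow
  obtain ⟨P, hPS⟩ : ∃ P : Subgroup G, P = (S : Subgroup G) := ⟨_, rfl⟩
  rw [← hPS] at hS
  have hPodd : Odd P.index := by
    rw [← Nat.not_even_iff_odd, even_iff_two_dvd, hPS]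
    exact S.not_dvd_index
  have hP2 : IsPGroup 2 P := by
    rw [hPS]; exact S.isPGroup'
  have hnorm : P.Normal := by
    constructor
    intro a ha g
    have h1 : g * a * g⁻¹ * a⁻¹ ∈ P := by
      apply hS
      rw [← commutatorElement_def]
      exact Subgroup.commutator_mem_commutator (Subgroup.mem_top _) (Subgroup.mem_top _)
    have h3 := P.mul_mem h1 ha
    simpa using h3
  let _ : CommGroup (G ⧸ P) := quotCommGroup P hS
  let _ : Fintype (G ⧸ P) := Fintype.ofFinite _
  have hidx : Fintype.card (G ⧸ P) = P.index := by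
    rw [← Nat.card_eq_fintype_card]; rfl
  have hsurj : Function.Surjective (QuotientGroup.mk' P) := QuotientGroup.mk'_surjective P
  obtain ⟨e, he⟩ := hP2.exists_card_eq
  have hv : 2 * (Nat.card P * P.index) = n ^ 4 + 3 * n ^ 2 + 4 := by
    rw [P.card_mul_index, Nat.card_eq_fintype_card]
    exact two_mul_card h
  obtain ⟨hA, hB, hlt⟩ := sylow_arith hn hodd hv rfl hPodd he (by
    intro hlt
    obtain ⟨r, t₀, _, hr, _⟩ := coset_count h (by omega) hodd (QuotientGroup.mk' P) hsurj
      (by rw [hidx]; exact hlt)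
    rw [hidx] at hr
    exact ⟨r, hr⟩)
  refine ⟨P, hnorm, hS, hP2, hA, hB, hPodd, ?_⟩
  obtain ⟨r, t₀, ht₀, hr, hcc⟩ := coset_count h (by omega) hodd (QuotientGroup.mk' P) hsurj
      (by rw [hidx]; exact hlt)
  rw [hidx] at hr
  have hr2 : r = 2 := by
    have h1 : r * P.index = 2 * P.index := by omega
    exact Nat.eq_of_mul_eq_mul_right hPodd.pos h1
  have ht1 : t₀ = 1 := by
    have h1 : orderOf t₀ ∣ 2 := orderOf_dvd_of_pow_eq_one (by rw [pow_two]; exact ht₀)
    have h3 : orderOf t₀ ∣ P.index := by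
      rw [← hidx]; exact orderOf_dvd_card
    rw [← orderOf_eq_one_iff]
    have h4 : Nat.Coprime 2 P.index := Nat.coprime_two_left.mpr hPodd
    have h5 := Nat.dvd_gcd h1 h3
    rw [h4] at h5
    exact Nat.dvd_one.mp h5
  intro u hu
  have hcu := hcc (QuotientGroup.mk' P u)
  have hne : QuotientGroup.mk' P u ≠ t₀ := by
    rw [ht1]
    intro hh
    apply hu
    exact (QuotientGroup.eq_one_iff u).mp hh
  rw [if_neg hne, hr2, add_zero] at hcu
  rw [← hcu, Nat.card_eq_fintype_card, Fintype.card_subtype]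
  congr 1
  ext x
  rw [Finset.mem_filter, Finset.mem_filter]
  simp only [Finset.mem_univ, true_and, QuotientGroup.mk'_apply]
  refine and_congr_right fun _ => ?_
  rw [eq_comm, QuotientGroup.eq]

end RectCay
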