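import Pool.Agent.MP_e446a9_co.BlockB

/-!
Block E3: the end game.
-/

namespace RectCay

open Subgroup

open scoped commutatorElement

variable {G : Type*} [Group G] [Fintype G] [DecidableEq G]

/-- the arithmetic for one element of the complement -/
private theorem e3_arith {n h s c t T : ℕ} (hn : 5 ≤ n) (hodd : Odd n)
    (h2 : 2 * h = n ^ 2 + 2 - n) (hT : (T : ℤ) ≡ 2 [ZMOD n]) (hTe : T = s * h * c)
    (hc1 : 1 ≤ c) (hc2 : c ≤ 2) (hs : (c + n * t) * s = n ^ 2 + n + 2) (ht : 1 ≤ t)
    (hs2 : 2 ≤ s) : s = 2 := by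
  have hle : n ≤ n ^ 2 := by nlinarith
  have h2' : 2 * h + n = n ^ 2 + 2 := by omega
  -- `s ≤ n`
  have hsn : s ≤ n := by
    by_contra hcon
    push Not at hcon
    have h1 : (1 + n) * (n + 1) ≤ (c + n * t) * s :=
      Nat.mul_le_mul (by nlinarith) (by omega)
    nlinarith
  -- divisibility
  have hd : (n : ℤ) ∣ 2 - (T : ℤ) := hT.dvd
  have h2z : (2 * h : ℤ) = (n : ℤ) ^ 2 + 2 - n := by
    have := congrArg (fun x : ℕ => (x : ℤ)) h2'
    push_cast at this
    linarith
  have hd2 : (n : ℤ) ∣ 2 * ((s : ℤ) * c - 2) := by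
    have h3 : (n : ℤ) ∣ 2 * (2 - (T : ℤ)) := Dvd.dvd.mul_left hd 2
    have h4 : 2 * ((s : ℤ) * c - 2) = -(2 * (2 - (T : ℤ))) - (n : ℤ) * ((n - 1) * s * c) := by
      rw [hTe]
      push_cast
      have : (s : ℤ) * h * c * 2 = s * c * (2 * h) := by ring
      nlinarith [this, h2z]
    rw [h4]
    exact dvd_sub ((dvd_neg).2 h3) (Dvd.intro _ rfl)
  have hcop : IsCoprime (n : ℤ) 2 := by
    rw [Int.isCoprime_iff_gcd_eq_one]
    have : Nat.Coprime n 2 := (Nat.coprime_two_right).2 hodd
    simpa [Int.gcd] using this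
  have hd3 : (n : ℤ) ∣ (s : ℤ) * c - 2 := hcop.dvd_of_dvd_mul_left hd2
  interval_cases c
  · -- c = 1
    obtain ⟨m, hm⟩ := hd3
    push_cast at hm
    have hm0 : m = 0 := by
      have h5 : -1 < m := by nlinarith
      have h6 : m < 1 := by nlinarith
      omega
    rw [hm0] at hm
    omega
  · have hd4 : (n : ℤ) ∣ 2 * ((s : ℤ) - 1) := by
      have : 2 * ((s : ℤ) - 1) = (s : ℤ) * ((2 : ℕ) : ℤ) - 2 := by push_cast; ring
      rw [this]; exact hd3
    have hd5 : (n : ℤ) ∣ (s : ℤ) - 1 := hcop.dvd_of_dvd_mul_left hd4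
    exfalso
    have h7 := Int.le_of_dvd (by omega) hd5
    omega

theorem end_game {D : Finset G} {n : ℕ} (h : IsD D n) (hn : 5 ≤ n) (hodd : Odd n)
    (P : Subgroup G) (hP : P.Normal) (hcomm : commutator G ≤ P) (h2 : IsPGroup 2 P)
    (hcard : Nat.card P = n ^ 2 + n + 2) (hidx : 2 * P.index = n ^ 2 + 2 - n)
    (hoddidx : Odd P.index)
    (hcount : ∀ u : G, u ∉ P → Nat.card {x : G // x ∈ D ∧ u⁻¹ * x ∈ P} = 2)
    (hZ : Nat.card (Subgroup.center G) = 2) : False := by
  classical
  have := hP
  -- the complement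
  obtain ⟨e, he⟩ := (IsPGroup.iff_card (p := 2) (G := P)).1 h2
  have hcop : Nat.Coprime (Nat.card P) P.index := by
    rw [he]
    exact Nat.Coprime.pow_left _ ((Nat.coprime_two_left).2 hoddidx)
  obtain ⟨K, hK⟩ := exists_right_complement'_of_coprime hcop
  have hPK : Disjoint P K := hK.disjoint
  have hKcard : Nat.card K = P.index := (hK.symm.index_eq_card).symm
  -- `Z ≤ P`
  have hZP : center G ≤ P := by
    intro z hz
    have h1 : z ^ 2 = 1 := by
      have := pow_card_eq_one' (x := (⟨z, hz⟩ : center G))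
      rw [hZ] at this
      exact congrArg Subtype.val this
    obtain ⟨m, hm⟩ := hoddidx
    have h3 := P.pow_index_mem z
    rw [hm, pow_succ, pow_mul, h1, one_pow, one_mul] at h3
    exact h3
  have hPKone : ∀ x, x ∈ P → x ∈ K → x = 1 := by
    intro x hx hx'
    exact (Subgroup.disjoint_def.1 hPK) hx hx'
  -- `K` is abelian
  have hKab : ∀ a ∈ K, ∀ b ∈ K, a * b = b * a := by
    intro a ha b hb
    have h1 : ⁅a, b⁆ ∈ P := hcomm (Subgroup.commutator_mem_commutator (mem_top a) (mem_top b))
    have h3 : ⁅a, b⁆ ∈ K := by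
      rw [commutatorElement_def]
      exact K.mul_mem (K.mul_mem (K.mul_mem ha hb) (K.inv_mem ha)) (K.inv_mem hb)
    exact commutatorElement_eq_one_iff_mul_comm.1 (hPKone _ h1 h3)
  -- main claim
  have key : ∀ u ∈ K, u ≠ 1 → ∀ x ∈ P, x * u = u * x → x ∈ center G := by
    intro u huK hu1
    have huP : u ∉ P := fun hu => hu1 (hPKone u hu huK)
    have huZ : u ∉ center G := fun hu => huP (hZP hu)
    obtain ⟨t, ht, hc1, hci⟩ := class_card h (by omega) hodd huZ
    set C := centralizer ({u} : Set G) with hC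
    set c := Nat.card {y : G // y ∈ D ∧ IsConj u y} with hc
    have hKC : K ≤ C := by
      intro a ha
      rw [hC, mem_centralizer_iff]
      intro g hg
      rw [Set.mem_singleton_iff] at hg
      rw [hg]
      exact hKab u huK a ha
    have htop : C ⊔ P = ⊤ := by
      rw [eq_top_iff, ← hK.sup_eq_top]
      exact sup_le le_sup_right (hKC.trans le_sup_left)
    have hrel : (P.subgroupOf C).index = P.index := by
      have h1 : P.relIndex (C ⊔ P) = P.relIndex C := Subgroup.relIndex_sup_right _ _
      rw [htop, Subgroup.relIndex_top_right] at h1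
      exact h1.symm
    have hs1 : Nat.card (P.subgroupOf C) * P.index = Nat.card C := by
      rw [← hrel]; exact Subgroup.card_mul_index _
    set s := Nat.card (P.subgroupOf C) with hs
    have hsinf : s = Nat.card (P ⊓ C : Subgroup G) := by
      rw [hs, ← Subgroup.inf_subgroupOf_right]
      exact Nat.card_congr (Subgroup.subgroupOfEquivOfLe inf_le_right).toEquiv
    have hidxpos : 0 < P.index := Nat.pos_of_ne_zero (Subgroup.index_ne_zero_of_finite)
    have hs3 : C.index * s = n ^ 2 + n + 2 := by
      have h1 : Nat.card C * C.index = Nat.card G := C.card_mul_index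
      have h3 : Nat.card P * P.index = Nat.card G := P.card_mul_index
      rw [← hs1] at h1
      rw [hcard] at h3
      have h4 : (C.index * s) * P.index = (n ^ 2 + n + 2) * P.index := by
        rw [h3, ← h1]; ring
      exact Nat.eq_of_mul_eq_mul_right hidxpos h4
    have hc2 : c ≤ 2 := by
      rw [← hcount u huP, hc]
      have hinj : Function.Injective (fun y : {y : G // y ∈ D ∧ IsConj u y} =>
          (⟨y.1, y.2.1, by
            obtain ⟨g, hg⟩ := isConj_iff.1 y.2.2
            rw [← hg]
            have h1 : ⁅u⁻¹, g⁆ ∈ P :=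
              hcomm (Subgroup.commutator_mem_commutator (mem_top _) (mem_top _))
            rw [commutatorElement_def, inv_inv] at h1
            simpa [mul_assoc] using h1⟩ : {x : G // x ∈ D ∧ u⁻¹ * x ∈ P})) := by
        intro a b hab
        exact Subtype.ext (congrArg (fun z : {x : G // x ∈ D ∧ u⁻¹ * x ∈ P} => z.1) hab)
      exact Nat.card_le_card_of_injective _ hinj
    have hle : center G ≤ P ⊓ C := by
      refine le_inf hZP ?_
      intro z hz
      rw [hC, mem_centralizer_iff]
      intro g _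
      exact (mem_center_iff.1 hz g)
    have hs2 : 2 ≤ s := by
      rw [hsinf, ← hZ]
      exact Subgroup.card_le_of_le hle
    have hT := T_modEq h (by omega) u
    have hTe : T D u = s * P.index * c := by
      rw [T_eq D u, ← hC, ← hs1]
    have hfin : s = 2 := by
      refine e3_arith hn hodd hidx hT hTe hc1 hc2 ?_ ht hs2
      rw [← hci]; exact hs3
    have heq : center G = P ⊓ C := by
      apply Subgroup.eq_of_le_of_card_ge hle
      rw [← hsinf, hfin, hZ]
    intro x hxP hxu
    rw [heq]
    refine ⟨hxP, ?_⟩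
    rw [hC]
    change x ∈ centralizer ({u} : Set G)
    rw [mem_centralizer_iff]
    intro g hg
    rw [Set.mem_singleton_iff] at hg
    rw [hg]; exact hxu.symm
  -- the free action
  let X := {x : G // x ∈ P ∧ x ∉ center G}
  let _ : MulAction K X :=
    { smul := fun k x => ⟨k.1 * x.1 * k.1⁻¹, hP.conj_mem _ x.2.1 _, by
        intro hmem
        apply x.2.2
        have h1 := (inferInstance : (center G).Normal).conj_mem _ hmem (k.1⁻¹)
        simpa [mul_assoc] using h1⟩
      one_smul := fun x => Subtype.ext (by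
        change (1 : K).1 * x.1 * (1 : K).1⁻¹ = x.1
        simp)
      mul_smul := fun a b x => Subtype.ext (by
        change (a * b).1 * x.1 * (a * b).1⁻¹ = a.1 * (b.1 * x.1 * b.1⁻¹) * a.1⁻¹
        simp [mul_assoc]) }
  have hstab : ∀ x : X, MulAction.stabilizer K x = ⊥ := by
    intro x
    rw [Subgroup.eq_bot_iff_forall]
    intro k hk
    rw [MulAction.mem_stabilizer_iff] at hk
    have h1 : k.1 * x.1 * k.1⁻¹ = x.1 := congrArg Subtype.val hk
    by_contra hne
    apply x.2.2
    apply key k.1 k.2 (fun h0 => hne (Subtype.ext h0)) x.1 x.2.1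
    have h3 : k.1 * x.1 = x.1 * k.1 := by
      calc k.1 * x.1 = (k.1 * x.1 * k.1⁻¹) * k.1 := by group
        _ = x.1 * k.1 := by rw [h1]
    exact h3.symm
  have hdvd : Nat.card K ∣ Nat.card X := by
    have : Fintype X := Fintype.ofFinite X
    have : Fintype K := Fintype.ofFinite K
    have : Fintype (MulAction.orbitRel.Quotient K X) := Fintype.ofFinite _
    have : ∀ b : X, Fintype (MulAction.stabilizer K b) := fun b => Fintype.ofFinite _
    rw [Nat.card_eq_fintype_card, Nat.card_eq_fintype_card,
      MulAction.card_eq_sum_card_group_div_card_stabilizer K X]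
    apply Finset.dvd_sum
    intro ω _
    have h1 : Fintype.card (MulAction.stabilizer K ω.out) = 1 := by
      rw [← Nat.card_eq_fintype_card, hstab]
      simp
    rw [h1, Nat.div_one]
  have hXcard : Nat.card X + 2 = n ^ 2 + n + 2 := by
    have h1 : Nat.card X + Nat.card (center G) = Nat.card P := by
      have e1 : (X ⊕ center G) ≃ P :=
        { toFun := Sum.elim (fun x => ⟨x.1, x.2.1⟩) (fun z => ⟨z.1, hZP z.2⟩)
          invFun := fun x => if hx : x.1 ∈ center G then Sum.inr ⟨x.1, hx⟩
            else Sum.inl ⟨x.1, x.2, hx⟩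
          left_inv := by
            rintro (x | z)
            · simp [x.2.2]
            · simp
          right_inv := by
            intro x
            by_cases hx : x.1 ∈ center G
            · simp [hx]
            · simp [hx] }
      rw [← Nat.card_congr e1, Nat.card_sum]
    rw [← hcard, ← h1, hZ]
  rw [hKcard] at hdvd
  have h3 : Nat.card X = n * (n + 1) := by nlinarith
  rw [h3] at hdvd
  have hle : n ≤ n ^ 2 := by nlinarith
  have hcopn : Nat.Coprime P.index n := by
    have h4 : Nat.gcd P.index n ∣ 2 := by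
      have h5 : Nat.gcd P.index n ∣ 2 * P.index + n :=
        Dvd.dvd.add (Dvd.dvd.mul_left (Nat.gcd_dvd_left _ _) 2) (Nat.gcd_dvd_right _ _)
      have h6 : 2 * P.index + n = n ^ 2 + 2 := by omega
      rw [h6] at h5
      exact (Nat.dvd_add_right (Dvd.dvd.pow (Nat.gcd_dvd_right _ _) (by norm_num))).1 h5
    have h5 : Nat.gcd P.index n ∣ 1 := by
      have h6 : Nat.Coprime (Nat.gcd P.index n) 2 :=
        Nat.Coprime.coprime_dvd_left (Nat.gcd_dvd_left _ _) ((Nat.coprime_two_right).2 hoddidx)
      have := Nat.Coprime.eq_one_of_dvd h6 h4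
      rw [this]
    exact Nat.dvd_one.1 h5
  have h7 : P.index ∣ n + 1 := hcopn.dvd_of_dvd_mul_left hdvd
  have h8 := Nat.le_of_dvd (by omega) h7
  have h9 : n ^ 2 + 2 ≤ 2 * (n + 1) + n := by omega
  nlinarith

end RectCay
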