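import Pool.Agent.MP_e446a9_co.BlockS

/-!
Block F: from a strongly regular graph with a regular group of automorphisms to the set `D`.
-/

namespace RectCay

variable {G : Type*} [Group G] [Fintype G] [DecidableEq G]

theorem exists_isD {V : Type*} [Fintype V] [DecidableEq V] [MulAction G V]
    (Γ : SimpleGraph V) [DecidableRel Γ.Adj] {v k : ℕ} (hΓ : Γ.IsSRGWith v k 0 2) (hk : 2 ≤ k)
    (hv : 0 < v)
    (hreg : ∀ x y : V, ∃! g : G, g • x = y)
    (haut : ∀ (g : G) (x y : V), Γ.Adj (g • x) (g • y) ↔ Γ.Adj x y) :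
    ∃ (n : ℕ) (D : Finset G), k = n ^ 2 + 1 ∧ IsD D n := by
  classical
  have hV : 0 < Fintype.card V := by rw [hΓ.card]; exact hv
  obtain ⟨x₀⟩ := Fintype.card_pos_iff.1 hV
  have hinj : ∀ a b : G, a • x₀ = b • x₀ → a = b := fun a b hab =>
    (hreg x₀ (b • x₀)).unique hab rfl
  have hsurj : ∀ y : V, ∃ a : G, a • x₀ = y := fun y => (hreg x₀ y).exists
  set D : Finset G := Finset.univ.filter fun g : G => g • x₀ = x₀ ∨ Γ.Adj x₀ (g • x₀) with hD
  have hmem : ∀ g : G, g ∈ D ↔ (g • x₀ = x₀ ∨ Γ.Adj x₀ (g • x₀)) := by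
    intro g
    rw [hD, Finset.mem_filter]
    simp
  have h1 : (1 : G) ∈ D := by
    rw [hmem]
    left
    exact one_smul G x₀
  have hinv : ∀ x ∈ D, x⁻¹ ∈ D := by
    intro g hg
    rw [hmem] at hg ⊢
    rcases hg with hg | hg
    · left
      exact inv_smul_eq_iff.2 hg.symm
    · right
      have h2 := (haut g⁻¹ x₀ (g • x₀)).2 hg
      rw [inv_smul_smul] at h2
      exact h2.symm
  have hcard : D.card = k + 1 := by
    have himg : D.image (fun g : G => g • x₀) = insert x₀ (Γ.neighborFinset x₀) := by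
      ext y
      rw [Finset.mem_image, Finset.mem_insert, SimpleGraph.mem_neighborFinset]
      constructor
      · rintro ⟨a, ha, rfl⟩
        exact (hmem a).1 ha
      · intro hy
        obtain ⟨a, rfl⟩ := hsurj y
        exact ⟨a, (hmem a).2 hy, rfl⟩
    have h3 : (D.image (fun g : G => g • x₀)).card = D.card :=
      Finset.card_image_of_injective _ (fun a b hab => hinj a b hab)
    rw [← h3, himg, Finset.card_insert_of_notMem (by simp), SimpleGraph.card_neighborFinset_eq_degree,
      hΓ.regular x₀]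
  have htwo : ∀ g : G, g ≠ 1 → (D.filter fun a => a⁻¹ * g ∈ D).card = 2 := by
    intro g hg
    have hy : g • x₀ ≠ x₀ := by
      intro hcon
      apply hg
      apply hinj
      rw [hcon, one_smul]
    set y := g • x₀ with hyd
    have hcond : ∀ a : G, a⁻¹ * g ∈ D ↔ (y = a • x₀ ∨ Γ.Adj (a • x₀) y) := by
      intro a
      rw [hmem, mul_smul, ← hyd, inv_smul_eq_iff, ← haut a x₀ (a⁻¹ • y), smul_inv_smul]
    have himg : (D.filter fun a => a⁻¹ * g ∈ D).image (fun g : G => g • x₀) =
        Finset.univ.filter fun z : V => (z = x₀ ∨ Γ.Adj x₀ z) ∧ (y = z ∨ Γ.Adj z y) := by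
      ext z
      rw [Finset.mem_image, Finset.mem_filter]
      constructor
      · rintro ⟨a, ha, rfl⟩
        rw [Finset.mem_filter] at ha
        exact ⟨Finset.mem_univ _, (hmem a).1 ha.1, (hcond a).1 ha.2⟩
      · rintro ⟨_, h2, h3⟩
        obtain ⟨a, rfl⟩ := hsurj z
        exact ⟨a, Finset.mem_filter.2 ⟨(hmem a).2 h2, (hcond a).2 h3⟩, rfl⟩
    have h3 : ((D.filter fun a => a⁻¹ * g ∈ D).image (fun g : G => g • x₀)).card =
        (D.filter fun a => a⁻¹ * g ∈ D).card :=
      Finset.card_image_of_injective _ (fun a b hab => hinj a b hab)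
    rw [← h3, himg]
    by_cases hadj : Γ.Adj x₀ y
    · have h4 := hΓ.of_adj x₀ y hadj
      have h5 : (Finset.univ.filter fun z : V => (z = x₀ ∨ Γ.Adj x₀ z) ∧ (y = z ∨ Γ.Adj z y)) =
          {x₀, y} := by
        ext z
        simp only [Finset.mem_filter, Finset.mem_univ, true_and, Finset.mem_insert,
          Finset.mem_singleton]
        constructor
        · rintro ⟨h6 | h6, h7 | h7⟩
          · exact Or.inl h6
          · exact Or.inl h6
          · exact Or.inr h7.symm
          · exfalso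
            have h8 : z ∈ Γ.commonNeighbors x₀ y := ⟨h6, h7.symm⟩
            exact (Fintype.card_eq_zero_iff.1 h4).elim ⟨z, h8⟩
        · rintro (rfl | rfl)
          · exact ⟨Or.inl rfl, Or.inr hadj⟩
          · exact ⟨Or.inr hadj, Or.inl rfl⟩
      rw [h5, Finset.card_pair hy.symm]
    · have h4 := hΓ.of_not_adj hy.symm hadj
      have h5 : (Finset.univ.filter fun z : V => (z = x₀ ∨ Γ.Adj x₀ z) ∧ (y = z ∨ Γ.Adj z y)) =
          (Γ.commonNeighbors x₀ y).toFinset := by
        ext z
        simp only [Finset.mem_filter, Finset.mem_univ, true_and, Set.mem_toFinset,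
          SimpleGraph.mem_commonNeighbors]
        constructor
        · rintro ⟨h6 | h6, h7 | h7⟩
          · exact absurd (h7.trans h6) hy
          · subst h6; exact absurd h7 hadj
          · subst h7; exact absurd h6 hadj
          · exact ⟨h6, h7.symm⟩
        · rintro ⟨h6, h7⟩
          exact ⟨Or.inr h6, Or.inr h7.symm⟩
      rw [h5, Set.toFinset_card, h4]
  obtain ⟨n, hn⟩ := exists_sq hk h1 hinv hcard htwo
  refine ⟨n, D, hn, ⟨h1, hinv, ?_, htwo⟩⟩
  rw [hcard, hn]

end RectCay
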