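import Pool.Agent.MP_e446a9_co.Defs

/-!
Block S: the spectral part.
-/

namespace RectCay

section Matrices

variable {ι : Type*} [Fintype ι] [DecidableEq ι]

/-- every root of the characteristic polynomial of a matrix of finite order is a root of unity -/
theorem pow_eq_one_of_mem_roots (X : Matrix ι ι ℂ) {m : ℕ} (hX : X ^ m = 1) {μ : ℂ}
    (hμ : μ ∈ X.charpoly.roots) : μ ^ m = 1 := by
  have h1 : μ ∈ spectrum ℂ X := by
    rw [Matrix.mem_spectrum_iff_isRoot_charpoly]
    exact (Polynomial.mem_roots'.1 hμ).2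
  have h2 : μ ^ m ∈ spectrum ℂ (X ^ m) := spectrum.pow_mem_pow X m h1
  rw [hX] at h2
  cases isEmpty_or_nonempty ι with
  | inl h =>
    exfalso
    have : Subsingleton (Matrix ι ι ℂ) := by infer_instance
    rw [spectrum.of_subsingleton] at h2
    exact h2
  | inr h =>
    rw [spectrum.one_eq] at h2
    simpa using h2

theorem isIntegral_trace (X : Matrix ι ι ℂ) {m : ℕ} (hm : 0 < m) (hX : X ^ m = 1) :
    IsIntegral ℤ X.trace := by
  rw [Matrix.trace_eq_sum_roots_charpoly]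
  apply IsIntegral.multiset_sum
  intro μ hμ
  apply IsIntegral.of_pow hm
  rw [pow_eq_one_of_mem_roots X hX hμ]
  exact isIntegral_one

theorem exists_int_trace (X : Matrix ι ι ℂ) (hX : X ^ 2 = 1) :
    ∃ z : ℤ, X.trace = z := by
  have h : X.trace ∈ (Int.castAddHom ℂ).range := by
    rw [Matrix.trace_eq_sum_roots_charpoly]
    apply AddSubgroup.multiset_sum_mem
    intro μ hμ
    have h2 := pow_eq_one_of_mem_roots X hX hμ
    rw [pow_two] at h2
    rcases mul_self_eq_one_iff.1 h2 with h | h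
    · exact ⟨1, by simp [h]⟩
    · exact ⟨-1, by simp [h]⟩
  obtain ⟨z, hz⟩ := h
  exact ⟨z, by rw [← hz]; simp⟩

end Matrices

variable {G : Type*} [Group G] [Fintype G] [DecidableEq G]

omit [Fintype G] in
/-- number of representations, all `g` -/
theorem reps_card {D : Finset G} {k : ℕ} (hinv : ∀ x ∈ D, x⁻¹ ∈ D) (hcard : D.card = k + 1)
    (h2 : ∀ g : G, g ≠ 1 → (D.filter fun a => a⁻¹ * g ∈ D).card = 2) (g : G) :
    (D.filter fun a => a⁻¹ * g ∈ D).card = if g = 1 then k + 1 else 2 := by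
  split_ifs with h
  · subst h
    rw [← hcard, Finset.filter_true_of_mem]
    intro x hx
    simpa using hinv x hx
  · exact h2 g h

theorem count_pairs {D : Finset G} {k : ℕ} (hinv : ∀ x ∈ D, x⁻¹ ∈ D) (hcard : D.card = k + 1)
    (h2 : ∀ g : G, g ≠ 1 → (D.filter fun a => a⁻¹ * g ∈ D).card = 2) :
    2 * Fintype.card G = k ^ 2 + k + 2 := by
  have h1 : ∑ g : G, (D.filter fun a => a⁻¹ * g ∈ D).card = (k + 1) * (k + 1) := by
    simp_rw [Finset.card_filter]
    rw [Finset.sum_comm]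
    have : ∀ a ∈ D, ∑ g : G, (if a⁻¹ * g ∈ D then 1 else 0) = k + 1 := by
      intro a _
      rw [← hcard, ← Equiv.sum_comp (Equiv.mulLeft a)]
      simp
    rw [Finset.sum_congr rfl this]
    simp [hcard]
  have h3 : ∑ g : G, (D.filter fun a => a⁻¹ * g ∈ D).card
      = ∑ g : G, (if g = 1 then k + 1 else 2) :=
    Finset.sum_congr rfl fun g _ => reps_card hinv hcard h2 g
  have h4 : ∑ g : G, (if g = 1 then k + 1 else 2) = (k + 1) + 2 * (Fintype.card G - 1) := by
    rw [← Finset.add_sum_erase _ _ (Finset.mem_univ (1 : G))]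
    have : ∀ g ∈ Finset.univ.erase (1 : G), (if g = 1 then k + 1 else 2) = 2 := by
      intro g hg
      rw [if_neg (Finset.ne_of_mem_erase hg)]
    rw [Finset.sum_congr rfl this]
    simp [Finset.card_erase_of_mem, Finset.card_univ, mul_comm]
  have h5 : 0 < Fintype.card G := Fintype.card_pos
  have h6 : (k + 1) * (k + 1) = (k + 1) + 2 * (Fintype.card G - 1) := by
    rw [← h1, h3, h4]
  obtain ⟨w, hw⟩ : ∃ w, Fintype.card G = w + 1 := ⟨_, (Nat.succ_pred_eq_of_pos h5).symm⟩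
  rw [hw] at h6 ⊢
  simp at h6
  nlinarith

/-- the adjacency matrix plus the identity -/
noncomputable def matM (D : Finset G) : Matrix G G ℂ :=
  Matrix.of fun x y => if x⁻¹ * y ∈ D then 1 else 0

noncomputable def matJ (G : Type*) : Matrix G G ℂ := Matrix.of fun _ _ => 1

theorem matM_sq {D : Finset G} {k : ℕ} (hinv : ∀ x ∈ D, x⁻¹ ∈ D) (hcard : D.card = k + 1)
    (h2 : ∀ g : G, g ≠ 1 → (D.filter fun a => a⁻¹ * g ∈ D).card = 2) :
    matM D * matM D = ((k : ℂ) - 1) • (1 : Matrix G G ℂ) + (2 : ℂ) • matJ G := by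
  ext x y
  rw [Matrix.mul_apply]
  have h1 : ∑ z, matM D x z * matM D z y = ((D.filter fun a => a⁻¹ * (x⁻¹ * y) ∈ D).card : ℂ) := by
    rw [← Equiv.sum_comp (Equiv.mulLeft x)]
    rw [Finset.card_filter]
    push_cast
    rw [← Finset.sum_filter_add_sum_filter_not Finset.univ (fun a => a ∈ D)]
    have e1 : ∀ a ∈ Finset.univ.filter (fun a => a ∈ D),
        matM D x (Equiv.mulLeft x a) * matM D (Equiv.mulLeft x a) y
          = if a⁻¹ * (x⁻¹ * y) ∈ D then 1 else 0 := by
      intro a ha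
      have ha' : a ∈ D := (Finset.mem_filter.1 ha).2
      simp [matM, ha', mul_assoc]
    have e2 : ∀ a ∈ Finset.univ.filter (fun a => ¬ a ∈ D),
        matM D x (Equiv.mulLeft x a) * matM D (Equiv.mulLeft x a) y = 0 := by
      intro a ha
      have ha' : ¬ a ∈ D := (Finset.mem_filter.1 ha).2
      simp [matM, ha']
    rw [Finset.sum_congr rfl e1, Finset.sum_congr rfl e2]
    simp
  rw [h1, reps_card hinv hcard h2]
  by_cases hxy : x = y
  · subst hxy
    simp [matJ]
    ring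
  · have : ¬ x⁻¹ * y = 1 := by
      intro h
      apply hxy
      have := mul_eq_one_iff_eq_inv.1 h
      simpa using this
    simp [matJ, hxy, this]

theorem matM_mul_matJ {D : Finset G} {k : ℕ} (hcard : D.card = k + 1) :
    matM D * matJ G = ((k : ℂ) + 1) • matJ G := by
  ext x y
  rw [Matrix.mul_apply, ← Equiv.sum_comp (Equiv.mulLeft x)]
  simp [matM, matJ, hcard]

theorem matJ_mul_matM {D : Finset G} {k : ℕ} (hinv : ∀ x ∈ D, x⁻¹ ∈ D) (hcard : D.card = k + 1) :
    matJ G * matM D = ((k : ℂ) + 1) • matJ G := by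
  ext x y
  rw [Matrix.mul_apply, ← Equiv.sum_comp (Equiv.mulLeft y)]
  have : ∀ a : G, a⁻¹ ∈ D ↔ a ∈ D := fun a => ⟨fun h => by simpa using hinv _ h, hinv a⟩
  simp [matM, matJ, hcard, this]

omit [Group G] [DecidableEq G] in
theorem matJ_mul_matJ : matJ G * matJ G = (Fintype.card G : ℂ) • matJ G := by
  ext x y
  simp [Matrix.mul_apply, matJ, Finset.card_univ]

/-- the deflated matrix -/
theorem deflated_sq {D : Finset G} {k : ℕ} (hinv : ∀ x ∈ D, x⁻¹ ∈ D) (hcard : D.card = k + 1)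
    (h2 : ∀ g : G, g ≠ 1 → (D.filter fun a => a⁻¹ * g ∈ D).card = 2) (c : ℂ)
    (hc : c ^ 2 * (Fintype.card G : ℂ) - 2 * c * ((k : ℂ) + 1) + 2 = 0) :
    (matM D - c • matJ G) * (matM D - c • matJ G) = ((k : ℂ) - 1) • (1 : Matrix G G ℂ) := by
  rw [sub_mul, mul_sub, mul_sub, matM_sq hinv hcard h2, Matrix.mul_smul, Matrix.smul_mul,
    Matrix.smul_mul, Matrix.mul_smul, matM_mul_matJ hcard, matJ_mul_matM hinv hcard,
    matJ_mul_matJ]
  simp only [smul_smul]
  have : (2 : ℂ) • matJ G - (c * ((k : ℂ) + 1)) • matJ G - ((c * ((k : ℂ) + 1)) • matJ G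
      - (c * (c * (Fintype.card G : ℂ))) • matJ G) = 0 := by
    rw [← sub_smul, ← sub_smul, ← sub_smul]
    have : 2 - c * ((k : ℂ) + 1) - (c * ((k : ℂ) + 1) - c * (c * (Fintype.card G : ℂ))) = 0 := by
      linear_combination hc
    rw [this, zero_smul]
  rw [add_sub_assoc, add_sub_assoc, this, add_zero]

/-- the permutation matrix of `g` -/
noncomputable def matP (g : G) : Matrix G G ℂ :=
  Matrix.of fun x y => if y = g * x then 1 else 0

theorem matP_mul (g h : G) : matP g * matP h = matP (h * g) := by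
  ext x y
  rw [Matrix.mul_apply, Finset.sum_eq_single (g * x)]
  · simp [matP, mul_assoc]
  · intro z _ hz
    simp [matP, hz]
  · simp

omit [Fintype G] in
theorem matP_one : matP (1 : G) = 1 := by
  ext x y
  simp [matP, Matrix.one_apply, eq_comm]

theorem matP_pow (g : G) (m : ℕ) : matP g ^ m = matP (g ^ m) := by
  induction m with
  | zero => simp [matP_one]
  | succ m ih => rw [pow_succ, ih, matP_mul, pow_succ']

theorem matP_mul_matM (D : Finset G) (g : G) :
    matP g * matM D = Matrix.of fun x y => if x⁻¹ * g⁻¹ * y ∈ D then 1 else 0 := by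
  ext x y
  rw [Matrix.mul_apply, Finset.sum_eq_single (g * x)]
  · simp [matP, matM]
  · intro z _ hz
    simp [matP, hz]
  · simp

theorem matM_mul_matP (D : Finset G) (g : G) :
    matM D * matP g = Matrix.of fun x y => if x⁻¹ * g⁻¹ * y ∈ D then 1 else 0 := by
  ext x y
  rw [Matrix.mul_apply, Finset.sum_eq_single (g⁻¹ * y)]
  · simp [matP, matM, mul_assoc]
  · intro z _ hz
    have : ¬ y = g * z := by
      intro h
      apply hz
      rw [h]; group
    simp [matP, this]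
  · simp

theorem matP_mul_matJ (g : G) : matP g * matJ G = matJ G := by
  ext x y
  simp [Matrix.mul_apply, matP, matJ]

theorem matJ_mul_matP (g : G) : matJ G * matP g = matJ G := by
  ext x y
  rw [Matrix.mul_apply, Finset.sum_eq_single (g⁻¹ * y)]
  · simp [matP, matJ]
  · intro z _ hz
    have : ¬ y = g * z := by
      intro h
      apply hz
      rw [h]; group
    simp [matP, this]
  · simp

theorem two_mul_card {D : Finset G} {n : ℕ} (h : IsD D n) :
    2 * Fintype.card G = n ^ 4 + 3 * n ^ 2 + 4 := by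
  rw [count_pairs (k := n ^ 2 + 1) h.inv_mem h.card_eq h.two_reps]
  ring

theorem T_modEq {D : Finset G} {n : ℕ} (h : IsD D n) (hn : 1 ≤ n) (g : G) :
    (T D g : ℤ) ≡ 2 [ZMOD n] := by
  have hn0 : (n : ℂ) ≠ 0 := by exact_mod_cast (by omega : n ≠ 0)
  have hv := two_mul_card h
  have hv0 : (Fintype.card G : ℂ) ≠ 0 := by exact_mod_cast Fintype.card_ne_zero
  have hvC : 2 * (Fintype.card G : ℂ) = (n : ℂ) ^ 4 + 3 * (n : ℂ) ^ 2 + 4 := by exact_mod_cast hv
  set v : ℂ := (Fintype.card G : ℂ) with hvdef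
  set c : ℂ := ((n : ℂ) ^ 2 + 2 + n) / v with hc
  have hcv : c * v = (n : ℂ) ^ 2 + 2 + n := by rw [hc]; field_simp
  have hc2 : c ^ 2 * v - 2 * c * (((n ^ 2 + 1 : ℕ) : ℂ) + 1) + 2 = 0 := by
    have h1 : v * (c ^ 2 * v - 2 * c * (((n ^ 2 + 1 : ℕ) : ℂ) + 1) + 2) = 0 := by
      push_cast
      have : v * (c ^ 2 * v - 2 * c * (((n : ℂ) ^ 2 + 1) + 1) + 2)
          = (c * v) ^ 2 - 2 * (c * v) * (((n : ℂ) ^ 2 + 1) + 1) + 2 * v := by ring
      rw [this, hcv, hvC]
      ring
    exact (mul_eq_zero.1 h1).resolve_left hv0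
  have hQ := deflated_sq (k := n ^ 2 + 1) h.inv_mem h.card_eq h.two_reps c hc2
  set Q := matM D - c • matJ G with hQdef
  set X : Matrix G G ℂ := (n : ℂ)⁻¹ • (matP g * Q) with hX
  have hcomm : matP g * Q = Q * matP g := by
    rw [hQdef, mul_sub, sub_mul, matP_mul_matM, matM_mul_matP, Matrix.mul_smul, Matrix.smul_mul,
      matP_mul_matJ, matJ_mul_matP]
  have hXX : X ^ 2 = matP (g ^ 2) := by
    rw [hX, smul_pow, pow_two (matP g * Q)]
    have : matP g * Q * (matP g * Q) = ((n : ℂ) ^ 2) • matP (g ^ 2) := by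
      calc matP g * Q * (matP g * Q) = matP g * (Q * matP g) * Q := by simp only [mul_assoc]
        _ = matP g * (matP g * Q) * Q := by rw [hcomm]
        _ = (matP g * matP g) * (Q * Q) := by simp only [mul_assoc]
        _ = ((n : ℂ) ^ 2) • matP (g ^ 2) := by
            rw [hQ, matP_mul, ← pow_two]
            push_cast
            simp
    rw [this, smul_smul]
    have : ((n : ℂ)⁻¹) ^ 2 * (n : ℂ) ^ 2 = 1 := by field_simp
    rw [this, one_smul]
  have hXm : X ^ (2 * orderOf g) = 1 := by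
    rw [pow_mul, hXX, matP_pow, ← pow_mul, mul_comm 2, pow_mul, pow_orderOf_eq_one, one_pow,
      matP_one]
  have hint := isIntegral_trace X (by have := orderOf_pos g; omega) hXm
  have htr : X.trace = (((T D g : ℤ) : ℂ) - ((n : ℂ) ^ 2 + 2 + n)) / n := by
    rw [hX, Matrix.trace_smul, hQdef, mul_sub, matP_mul_matM, Matrix.mul_smul, matP_mul_matJ,
      Matrix.trace_sub, Matrix.trace_smul]
    have h1 : (Matrix.of fun x y : G => if x⁻¹ * g⁻¹ * y ∈ D then (1 : ℂ) else 0).trace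
        = ((T D g : ℤ) : ℂ) := by
      rw [Matrix.trace, T, Finset.card_filter]
      push_cast
      apply Finset.sum_congr rfl
      intro x _
      have : x⁻¹ * g⁻¹ * x ∈ D ↔ x⁻¹ * g * x ∈ D := by
        have e : (x⁻¹ * g * x)⁻¹ = x⁻¹ * g⁻¹ * x := by group
        constructor
        · intro hx
          have := h.inv_mem _ hx
          rw [← e, inv_inv] at this
          exact this
        · intro hx
          rw [← e]
          exact h.inv_mem _ hx
      simp [this]
    have h2 : (matJ G).trace = v := by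
      simp [Matrix.trace, matJ, Finset.card_univ, hvdef]
    rw [h1, h2, smul_eq_mul, smul_eq_mul, hcv]
    field_simp
  -- a rational algebraic integer is an integer
  set q : ℚ := (((T D g : ℤ) : ℚ) - ((n : ℚ) ^ 2 + 2 + n)) / n with hq
  have hqt : X.trace = algebraMap ℚ ℂ q := by
    rw [htr, hq]
    simp
  rw [hqt, isIntegral_algebraMap_iff (algebraMap ℚ ℂ).injective] at hint
  obtain ⟨z, hz⟩ := IsIntegrallyClosed.isIntegral_iff.1 hint
  have hz' : (z : ℚ) * n = ((T D g : ℤ) : ℚ) - ((n : ℚ) ^ 2 + 2 + n) := by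
    have hnq : (n : ℚ) ≠ 0 := by exact_mod_cast (by omega : n ≠ 0)
    have : (z : ℚ) = q := by simpa using hz
    rw [this, hq]
    field_simp
  have hz'' : z * n = (T D g : ℤ) - ((n : ℤ) ^ 2 + 2 + n) := by exact_mod_cast hz'
  apply Int.ModEq.symm
  rw [Int.modEq_iff_dvd]
  refine ⟨z + n + 1, ?_⟩
  linear_combination -hz''

theorem exists_sq {D : Finset G} {k : ℕ} (hk : 2 ≤ k) (h1 : (1 : G) ∈ D)
    (hinv : ∀ x ∈ D, x⁻¹ ∈ D) (hcard : D.card = k + 1)
    (h2 : ∀ g : G, g ≠ 1 → (D.filter fun a => a⁻¹ * g ∈ D).card = 2) :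
    ∃ n : ℕ, k = n ^ 2 + 1 := by
  have hv := count_pairs hinv hcard h2
  have hv0 : (Fintype.card G : ℂ) ≠ 0 := by exact_mod_cast Fintype.card_ne_zero
  have hvC : 2 * (Fintype.card G : ℂ) = (k : ℂ) ^ 2 + k + 2 := by exact_mod_cast hv
  set v : ℂ := (Fintype.card G : ℂ) with hvdef
  set ρ : ℝ := Real.sqrt ((k : ℝ) - 1) with hρ
  have hkR : (0 : ℝ) < (k : ℝ) - 1 := by
    have : (2 : ℝ) ≤ k := by exact_mod_cast hk
    linarith
  have hρ2 : ρ ^ 2 = (k : ℝ) - 1 := Real.sq_sqrt hkR.le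
  have hρ0 : ρ ≠ 0 := (Real.sqrt_pos.2 hkR).ne'
  set r : ℂ := (ρ : ℂ) with hr
  have hr2 : r ^ 2 = (k : ℂ) - 1 := by
    rw [hr]
    exact_mod_cast congrArg (fun x : ℝ => (x : ℂ)) hρ2
  have hr0 : r ≠ 0 := by
    rw [hr]
    exact_mod_cast hρ0
  set c : ℂ := ((k : ℂ) + 1 + r) / v with hc
  have hcv : c * v = (k : ℂ) + 1 + r := by rw [hc]; field_simp
  have hc2 : c ^ 2 * v - 2 * c * ((k : ℂ) + 1) + 2 = 0 := by
    have h1 : v * (c ^ 2 * v - 2 * c * ((k : ℂ) + 1) + 2) = 0 := by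
      have : v * (c ^ 2 * v - 2 * c * ((k : ℂ) + 1) + 2)
          = (c * v) ^ 2 - 2 * (c * v) * ((k : ℂ) + 1) + 2 * v := by ring
      rw [this, hcv, hvC]
      linear_combination hr2
    exact (mul_eq_zero.1 h1).resolve_left hv0
  have hQ := deflated_sq hinv hcard h2 c hc2
  set Q := matM D - c • matJ G with hQdef
  have hX : (r⁻¹ • Q) ^ 2 = 1 := by
    rw [smul_pow, pow_two Q, hQ, smul_smul, ← hr2]
    have : (r⁻¹) ^ 2 * r ^ 2 = 1 := by field_simp
    rw [this, one_smul]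
  obtain ⟨z, hz⟩ := exists_int_trace _ hX
  have htr : (r⁻¹ • Q).trace = (v - ((k : ℂ) + 1 + r)) / r := by
    rw [Matrix.trace_smul, hQdef, Matrix.trace_sub, Matrix.trace_smul]
    have e1 : (matM D).trace = v := by
      simp [Matrix.trace, matM, h1, Finset.card_univ, hvdef]
    have e2 : (matJ G).trace = v := by
      simp [Matrix.trace, matJ, Finset.card_univ, hvdef]
    rw [e1, e2, smul_eq_mul, smul_eq_mul, hcv]
    field_simp
  have h3 : v - ((k : ℂ) + 1) = ((z : ℂ) + 1) * r := by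
    rw [htr] at hz
    have := hz
    field_simp at this
    linear_combination this
  have h4 : ((k : ℂ) ^ 2 - k) ^ 2 = (2 * ((z : ℂ) + 1)) ^ 2 * ((k : ℂ) - 1) := by
    have e : (k : ℂ) ^ 2 - k = 2 * (((z : ℂ) + 1) * r) := by
      rw [← h3]
      linear_combination -hvC
    rw [e, ← hr2]
    ring
  have h5 : ((k : ℤ) ^ 2 - k) ^ 2 = (2 * (z + 1)) ^ 2 * ((k : ℤ) - 1) := by exact_mod_cast h4
  have h6 : ((k : ℤ) - 1) ≠ 0 := by
    have : (2 : ℤ) ≤ k := by exact_mod_cast hk
    omega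
  have h7 : (k : ℤ) ^ 2 * ((k : ℤ) - 1) = (2 * (z + 1)) ^ 2 := by
    apply mul_right_cancel₀ h6
    rw [← h5]
    ring
  have h8 : (k : ℤ) ∣ 2 * (z + 1) := by
    rw [← Int.pow_dvd_pow_iff two_ne_zero, ← h7]
    exact dvd_mul_right _ _
  obtain ⟨u, hu⟩ := h8
  have hk0 : (k : ℤ) ^ 2 ≠ 0 := by
    have : (2 : ℤ) ≤ k := by exact_mod_cast hk
    positivity
  have h9 : (k : ℤ) - 1 = u ^ 2 := by
    apply mul_left_cancel₀ hk0
    rw [h7, hu]
    ring
  refine ⟨u.natAbs, ?_⟩
  have : (k : ℤ) = ((u.natAbs ^ 2 + 1 : ℕ) : ℤ) := by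
    push_cast
    rw [sq_abs]
    linarith
  exact_mod_cast this

end RectCay
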