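import Mathlib

/-!
Common definitions for the project MP_e446a9_co (strongly regular Cayley graphs with `λ = 0`,
`μ = 2`).  `D` is the closed neighbourhood of the identity, `n ^ 2 = k - 1`.
-/

namespace RectCay

variable {G : Type*} [Group G] [Fintype G] [DecidableEq G]

/-- `D` is the closed neighbourhood of `1` in a Cayley graph that is strongly regular with
`λ = 0`, `μ = 2` and degree `n ^ 2 + 1`. -/
structure IsD (D : Finset G) (n : ℕ) : Prop where
  one_mem : (1 : G) ∈ D
  inv_mem : ∀ x ∈ D, x⁻¹ ∈ D
  card_eq : D.card = n ^ 2 + 2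
  two_reps : ∀ g : G, g ≠ 1 → (D.filter fun a => a⁻¹ * g ∈ D).card = 2

/-- the number of `x` with `x⁻¹ g x ∈ D` -/
def T (D : Finset G) (g : G) : ℕ := (Finset.univ.filter fun x : G => x⁻¹ * g * x ∈ D).card

end RectCay
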