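import Pool.Agent.MP_e446a9_co.BlockE1
import Pool.Agent.MP_e446a9_co.BlockE2
import Pool.Agent.MP_e446a9_co.BlockE3
import Pool.Agent.MP_e446a9_co.BlockF

/-!
# MP_e446a9_co: vertex-regular groups of a strongly regular graph with `λ = 0`, `μ = 2`

Let `Γ` be a strongly regular graph with `λ = 0`, `μ = 2` and degree `k > 10` and let `G` be a group
of automorphisms of `Γ` that acts regularly on the vertices (so `Γ` is a Cayley graph of `G`).  Then
`|Z(G)| ≤ 2`, `G` is not nilpotent, and if `k` is even, then the commutator subgroup of `G` is not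
nilpotent either (in particular `G` is neither metabelian nor supersolvable).
-/

namespace RectCay.NilpotentDerived

open RectCay

theorem not_nilpotent_commutator {G : Type*} [Group G] [Fintype G] [DecidableEq G]
    {D : Finset G} {n : ℕ} (h : IsD D n) (hn : 5 ≤ n) (hodd : Odd n) :
    ¬ Group.IsNilpotent (commutator G) := by
  intro hnil
  obtain ⟨h2, hZ⟩ := commutator_two_group h hn hodd hnil
  obtain ⟨P, hP, hc, hP2, hcard, hidx, ho, hcount⟩ := sylow_data h hn hodd h2
  exact end_game h hn hodd P hP hc hP2 hcard hidx ho hcount hZ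

/-- Let `Γ` be strongly regular with `λ = 0`, `μ = 2` and degree `k > 10`, and let the group `G`
act on the vertices by automorphisms of `Γ`, regularly.  Then the centre of `G` has at most two
elements, `G` is not nilpotent, and if `k` is even, the commutator subgroup of `G` is not
nilpotent. -/
theorem result {V G : Type*} [Fintype V] [DecidableEq V] [Nonempty V] [Group G] [MulAction G V]
    (Γ : SimpleGraph V) [DecidableRel Γ.Adj] {v k : ℕ} (hΓ : Γ.IsSRGWith v k 0 2) (hk : 10 < k)
    (haut : ∀ (g : G) (x y : V), Γ.Adj (g • x) (g • y) ↔ Γ.Adj x y)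
    (hreg : ∀ x y : V, ∃! g : G, g • x = y) :
    Nat.card (Subgroup.center G) ≤ 2 ∧ ¬ Group.IsNilpotent G ∧
      (Even k → ¬ Group.IsNilpotent (commutator G)) := by
  classical
  obtain ⟨x₀⟩ := (inferInstance : Nonempty V)
  have hinj : Function.Injective (fun g : G => g • x₀) := by
    intro a b hab
    obtain ⟨c, -, hc⟩ := hreg x₀ (b • x₀)
    rw [hc a hab, hc b rfl]
  have : Finite G := Finite.of_injective _ hinj
  letI : Fintype G := Fintype.ofFinite G
  have hv : 0 < v := by
    rw [← hΓ.card]
    exact Fintype.card_pos_iff.2 ⟨x₀⟩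
  obtain ⟨n, D, hkn, hD⟩ := exists_isD Γ hΓ (by omega) hv hreg haut
  have hn : 4 ≤ n := by
    by_contra hcon
    push Not at hcon
    have : n ^ 2 ≤ 3 ^ 2 := Nat.pow_le_pow_left (by omega) 2
    omega
  refine ⟨card_center_le hD (by omega), not_isNilpotent hD (by omega), ?_⟩
  intro hev
  have hodd : Odd n := by
    by_contra hne
    rw [Nat.not_odd_iff_even] at hne
    have h2 : Even (n ^ 2) := hne.pow_of_ne_zero (by norm_num)
    rw [hkn] at hev
    exact (Nat.not_even_iff_odd.2 h2.add_one) hev
  have hn5 : 5 ≤ n := by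
    rcases hodd with ⟨m, hm⟩
    omega
  exact not_nilpotent_commutator hD hn5 hodd

end RectCay.NilpotentDerived
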