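import Pool.Agent.SRC.F2
import Pool.Agent.MP_e446a9_co.BlockF

/-!
# MP_e446a9_co: no strongly regular graph with `λ = 0`, `μ = 2`, `k > 10` is a Cayley graph of a
solvable group
-/

set_option autoImplicit false

namespace Pool.Agent.MP_e446a9_co.SolvableCayley

open RectCay

/-- Let `Γ` be strongly regular with `λ = 0`, `μ = 2` and degree `k > 10`, and let the group `G`
act on the vertices by automorphisms of `Γ`, regularly (so `Γ` is a Cayley graph of `G`).  Then `G`
is not solvable. -/
theorem result {V G : Type*} [Fintype V] [DecidableEq V] [Nonempty V] [Group G] [MulAction G V]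
    (Γ : SimpleGraph V) [DecidableRel Γ.Adj] {v k : ℕ} (hΓ : Γ.IsSRGWith v k 0 2) (hk : 10 < k)
    (haut : ∀ (g : G) (x y : V), Γ.Adj (g • x) (g • y) ↔ Γ.Adj x y)
    (hreg : ∀ x y : V, ∃! g : G, g • x = y) :
    ¬ Group.IsSolvable G := by
  classical
  obtain ⟨x₀⟩ := (inferInstance : Nonempty V)
  have hinj : Function.Injective (fun g : G => g • x₀) := by
    intro a b hab
    obtain ⟨c, -, hc⟩ := hreg x₀ (b • x₀)
    rw [hc a hab, hc b rfl]
  have : Finite G := Finite.of_injective _ hinj
  letI : Fintype G := Fintype.ofFinite G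
  have hv : 0 < v := by
    rw [← hΓ.card]
    exact Fintype.card_pos_iff.2 ⟨x₀⟩
  obtain ⟨n, D, hkn, hD⟩ := exists_isD Γ hΓ (by omega) hv hreg haut
  have hn : 4 ≤ n := by
    by_contra hcon
    push Not at hcon
    have : n ^ 2 ≤ 3 ^ 2 := Nat.pow_le_pow_left (by omega) 2
    omega
  have hn5 : 5 ≤ n := by
    rcases Nat.lt_or_ge 4 n with h | h
    · exact h
    · exfalso
      have : n = 4 := le_antisymm h hn
      subst this
      exact SRC.four_not_dvd hD (by norm_num) (dvd_refl 4)
  exact SRC.not_solvable hD hn5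

end Pool.Agent.MP_e446a9_co.SolvableCayley
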